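import Pool.Agent.H297.WP.Krm
import Pool.Agent.Y63.NV.Krc

/-!
# The weight conjecture is decided by congruences modulo `p`
-/

set_option autoImplicit false

open scoped Classical

set_option linter.unusedSectionVars false

noncomputable section

namespace Pool.Agent.H297.WP

open Pool.Agent.Y63.KR (KRC alternatingSum chainStabilizer numHom zsum numHom_zsum chainSetoid
  alternatingSum_sub alternatingSum_single numFixed numFixedRegular numFixed_one galois)
open Pool.Agent.Y63.AWC (numDefectZero numDefectZero_congr pSubgroupSetoid numWeights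
  numRegularClasses)
open Pool.Agent.Y63.NV (Closed XP Reduced reduction' krc_lw xp_closed pgroup_top altSum_weights
  stab_lt)

section

variable {p : ℕ} [hp : Fact p.Prime]

/-- the alternating sum of the differences `l - w` is the Knörr-Robinson difference -/
lemma altSum_lw (G : Type) [Group G] [Finite G] :
    alternatingSum p G (fun H => (numRegularClasses p H : ℤ) - numWeights p H) = del p G := by
  rw [alternatingSum_sub (fun H : Subgroup G => (numRegularClasses p H : ℤ))
    (fun H : Subgroup G => (numWeights p H : ℤ)), altSum_weights]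
  have e1 : (fun H : Subgroup G => (Nat.card (ConjClasses H) : ℤ)) =
      fun H : Subgroup G => (numFixed 1 H : ℤ) := funext fun H => by rw [numFixed_one]
  have e2 : (fun H : Subgroup G => (numFixedRegular p 1 H : ℤ)) =
      fun H : Subgroup G => (numRegularClasses p H : ℤ) := funext fun H => by
    have : numFixedRegular p 1 H = numRegularClasses p H := by
      unfold numFixedRegular numRegularClasses
      refine Nat.card_congr (Equiv.subtypeEquivRight fun C => ?_)
      refine exists_congr fun x => and_congr_right fun _ => ?_
      rw [pow_one]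
      exact ⟨fun h => h.2, fun h => ⟨IsConj.refl x, h⟩⟩
    rw [this]
  unfold del sK
  rw [e1, galois 1, e2]

/-- the Knörr-Robinson conjecture for a class of groups implies the weight conjecture -/
theorem awc_of_krc (X : ∀ (H : Type) [Group H], Prop) (hX : Closed p X)
    (h : ∀ (H : Type) [Group H] [Finite H], X H → KRC p H) (G : Type) [Group G] [Finite G]
    (hG : X G) : numRegularClasses p G = numWeights p G := by
  refine reduction' p X hX ?_ (Nat.card G) G le_rfl ⟨⊤, inferInstance,
    hX.iso _ _ hG ⟨Subgroup.topEquiv.symm⟩, pgroup_top p G⟩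
  intro H _ _ hH hR hsmall
  have h1 := krc_lw.1 (h H hH)
  rw [alternatingSum_single] at h1
  · have h2 := Pool.Agent.Y63.AWC.numRegularClasses_congr (p := p)
      (Subgroup.topEquiv (G := H))
    have h3 := Pool.Agent.Y63.AWC.numWeights_congr (p := p) (Subgroup.topEquiv (G := H))
    rw [h2, h3] at h1
    have := sub_eq_zero.1 h1
    exact_mod_cast this
  · intro σ hσ hne
    have hXP : XP p X (chainStabilizer σ) :=
      (xp_closed p X hX).sub H ⟨⊤, inferInstance,
        hX.iso _ _ hH ⟨Subgroup.topEquiv.symm⟩, pgroup_top p H⟩ _
    change (numRegularClasses p (chainStabilizer σ) : ℤ) -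
      numWeights p (chainStabilizer σ) = 0
    rw [hsmall (chainStabilizer σ) hXP (stab_lt hR.radical hσ hne), sub_self]

/-- **congruences modulo `p` decide the weight conjecture** -/
theorem awc_class (X : ∀ (H : Type) [Group H], Prop) (hX : Closed p X)
    (hW : ∀ (H : Type) [Group H] [Finite H], X H → X (Wr p H)) :
    (∀ (G : Type) [Group G] [Finite G], X G → numRegularClasses p G = numWeights p G) ↔
      ∀ (G : Type) [Group G] [Finite G], X G →
        numRegularClasses p G ≡ numWeights p G [MOD p] := by
  constructor
  · intro h G _ _ hG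
    rw [h G hG]
  · intro h
    have h1 : ∀ (G : Type) [Group G] [Finite G], X G → (p : ℤ) ∣ del p G := by
      intro G _ _ hG
      have : Fintype (Quotient (chainSetoid p G)) := Fintype.ofFinite _
      rw [← altSum_lw]
      unfold alternatingSum
      rw [finsum_eq_sum_of_fintype]
      refine Finset.dvd_sum fun c _ => Dvd.dvd.mul_left ?_ _
      have h2 := h (chainStabilizer c.out.1) (hX.sub G hG _)
      exact (Int.modEq_iff_dvd.mp (Int.natCast_modEq_iff.mpr h2).symm)
    have h2 := (krc_class (p := p) (fun G => X G) (fun G hG hXG => hW G hXG)).mpr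
      fun G hG hXG => h1 G hXG
    exact fun G _ _ hG => awc_of_krc X hX (fun H _ _ hH => h2 (GrpCat.of H)
      (inferInstanceAs (Finite H)) hH) G hG

/-- the number of weights modulo `p` -/
theorem numWeights_mod {n : ℕ} (hn0 : n ≠ 0) (hn : p - 1 ∣ 2 * n) (G : Type) [Group G]
    [Finite G] : numWeights p G ≡ ∑ᶠ c : Quotient (pSubgroupSetoid p G),
      numHom (n + 1) (Subgroup.normalizer (c.out.1 : Set G) ⧸
        c.out.1.subgroupOf (Subgroup.normalizer (c.out.1 : Set G))) /
      Nat.card (Subgroup.normalizer (c.out.1 : Set G) ⧸
        c.out.1.subgroupOf (Subgroup.normalizer (c.out.1 : Set G))) [MOD p] := by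
  have : Fintype (Quotient (pSubgroupSetoid p G)) := Fintype.ofFinite _
  unfold numWeights
  rw [finsum_eq_sum_of_fintype, finsum_eq_sum_of_fintype]
  refine Nat.ModEq.sum fun c _ => ?_
  have : Fintype (Subgroup.normalizer (c.out.1 : Set G) ⧸
        c.out.1.subgroupOf (Subgroup.normalizer (c.out.1 : Set G))) := Fintype.ofFinite _
  rw [numHom_zsum, Nat.mul_div_cancel_left _ Nat.card_pos]
  exact (zsum_mod' hn0 hn).symm

end

end Pool.Agent.H297.WP
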