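import Pool.Agent.H297.WP.Tower
import Pool.Agent.R674.Ce.Dz
import Pool.Agent.R674.KB.Main
import Pool.Agent.Y63.NV.Nalt

/-!
# The blockwise alternating sums and a normal subgroup of index `p`
-/

set_option autoImplicit false

open scoped Classical

set_option linter.unusedSectionVars false

noncomputable section

namespace Pool.Agent.H297.WP

open Pool.Agent.R674.Ce
open Pool.Agent.Y63.KR (IsPChain chainStabilizer conjSub)
open Pool.Agent.Y63.NV

section

variable {p : ℕ} [Fact p.Prime] {F : Type} [Field F] [IsAlgClosed F] [CharP F p]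

/-- `|Γ|` times the alternating sum of the numbers of the characters of the stabilisers whose
reduced central character takes the value `c` at `z` -/
def KSm (p : ℕ) (red : integralClosure ℤ ℂ →+* F) {Γ : Type} [Group Γ] (z : Γ → F) (c : F) : ℤ :=
  ∑ᶠ σ : {σ : Set (Subgroup Γ) // IsPChain p σ}, (-1) ^ σ.1.ncard *
    ((Nat.card (chainStabilizer σ.1) : ℤ) * Knum red (fun x : chainStabilizer σ.1 => z x) c)

lemma lsum_iso {A B : Type} [Group A] [Group B] (e : A ≃* B) (z : B → F) (c : F) :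
    Lsum (⊤ : Subgroup A) ⊤ (fun a => z (e a)) c = Lsum (⊤ : Subgroup B) ⊤ z c := by
  unfold Lsum
  rw [if_pos (top_sup_eq _), if_pos (top_sup_eq _), Subgroup.card_top, Subgroup.card_top,
    Nat.card_congr e.toEquiv]
  congr 2
  let e' : ↥((⊤ : Subgroup A) ⊓ ⊤) ≃* ↥((⊤ : Subgroup B) ⊓ ⊤) :=
    { toFun := fun x => ⟨e x.1, trivial, trivial⟩
      invFun := fun y => ⟨e.symm y.1, trivial, trivial⟩
      left_inv := fun x => Subtype.ext (e.symm_apply_apply _)
      right_inv := fun x => Subtype.ext (e.apply_symm_apply _)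
      map_mul' := fun x y => Subtype.ext (map_mul e _ _) }
  refine Pool.Agent.Y210.NV2.lnum_congr _ _ _ _ _ _ c e' (fun _ => rfl) fun φ => ⟨?_, ?_⟩
  · intro h g _ x y hxy
    exact h (e g) trivial (e' x) (e' y) (by
      change e y.1 = e g * e x.1 * (e g)⁻¹
      rw [hxy, map_mul, map_mul, map_inv])
  · intro h g _ x y hxy
    have h1 := h (e.symm g) trivial (e'.symm x) (e'.symm y) (by
      change e.symm y.1 = e.symm g * e.symm x.1 * (e.symm g)⁻¹
      rw [hxy, map_mul, map_mul, map_inv])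
    simpa using h1

variable {Γ : Type} [Group Γ] [Finite Γ]

lemma ksm_eq (red : integralClosure ℤ ℂ →+* F) {z : Γ → F} (hz : IsClassFun z) (c : F) :
    KSm p red z c = chs (Sp p (⊤ : Subgroup Γ)) (wt ⊤ (fun H => Lsum ⊤ H z c)) := by
  have : Fintype {σ : Set (Subgroup Γ) // IsPChain p σ} := Fintype.ofFinite _
  unfold KSm
  rw [chs_top, finsum_eq_sum_of_fintype, finsum_eq_sum_of_fintype,
    kl_alt Pool.Agent.R674.KB.kdimh Pool.Agent.R674.KB.kfilt red hz c]
  refine Finset.sum_congr rfl fun σ _ => ?_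
  rw [lsum_cut, top_inf_eq]

lemma ksm_sub (red : integralClosure ℤ ℂ →+* F) {z : Γ → F} (hz : IsClassFun z) (c : F)
    (K : Subgroup Γ) :
    KSm p red (fun x : K => z x) c = chs (Sp p K) (wt K (fun H => Lsum ⊤ H z c)) := by
  have hz' : IsClassFun (fun x : K => z x) := fun g x => hz g x
  rw [ksm_eq red hz' c, chs_top, chs_subgroup]
  refine finsum_congr fun σ => ?_
  congr 1
  rw [top_inf_eq, parts.trl F K ⊤ (chainStabilizer σ.1) _ c (top_sup_eq _),
    parts.trl F Γ ⊤ ((chainStabilizer σ.1).map K.subtype) _ c (top_sup_eq _),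
    Subgroup.top_subgroupOf, Subgroup.top_subgroupOf]
  exact lsum_iso ((chainStabilizer σ.1).equivMapOfInjective K.subtype K.subtype_injective)
    (fun x : ↥((chainStabilizer σ.1).map K.subtype) => z x) c

lemma stepA {G : Subgroup Γ} [G.Normal] (hi : Nat.card (Γ ⧸ G) = p) {z : Γ → F} (hz : InZ G z)
    (c : F) (H : Subgroup Γ) :
    (p : ℤ) * Lsum ⊤ H z c = p * Lsum ⊤ (G ⊓ H) z c + (p - 1) * Lsum G H z c := by
  by_cases hGH : G ⊔ H = ⊤
  · have hi' : Nat.card (H ⧸ G.subgroupOf H) = p := by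
      have h1 : (G.subgroupOf H).index = G.index := by
        change G.relIndex H = G.index
        rw [← Subgroup.relIndex_sup_left, hGH, Subgroup.relIndex_top_right]
      exact h1.trans hi
    have hz' : InZ (G.subgroupOf H) (fun x : H => z x) :=
      ⟨fun g x => hz.conj g x, fun x hx => hz.supp _ fun h => hx (Subgroup.mem_subgroupOf.mpr h)⟩
    have h1 := pell' p F H (G.subgroupOf H) (fun x : H => z x) c hi' hz'
    rw [parts.trl F Γ ⊤ H z c (top_sup_eq _), parts.trl F Γ G H z c hGH,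
      parts.trl F Γ ⊤ (G ⊓ H) z c (top_sup_eq _), Subgroup.top_subgroupOf,
      Subgroup.top_subgroupOf, h1]
    congr 2
    let e : ↥(G.subgroupOf H) ≃* ↥(G ⊓ H) :=
      { toFun := fun y => ⟨y.1.1, ⟨y.2, y.1.2⟩⟩
        invFun := fun x => ⟨⟨x.1, x.2.2⟩, x.2.1⟩
        left_inv := fun _ => rfl
        right_inv := fun _ => rfl
        map_mul' := fun _ _ => rfl }
    exact lsum_iso e (fun x : ↥(G ⊓ H) => z x) c
  · have hle : H ≤ G := by
      by_contra h
      exact hGH (Pool.Agent.Y487.NV.sup_eq_top G Fact.out hi H h)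
    rw [lsum_zero hGH, inf_eq_right.mpr hle]
    ring

/-- **the blockwise alternating sums and a normal subgroup of index `p`** -/
theorem ksm_formula (red : integralClosure ℤ ℂ →+* F) {G : Subgroup Γ} [G.Normal]
    (hi : G.index = p) {z : Γ → F} (hz : InZ G z) (c : F) :
    KSm p red z c = KSm p red (fun x : G => z x) c -
      ∑ᶠ R : Subgroup Γ, if IsPGroup p R ∧ G ⊔ R = ⊤ ∧ G ⊓ R = ⊥ then
        KSm p red (fun x : ↥(G ⊓ Subgroup.centralizer (R : Set Γ)) => z x) c else 0 := by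
  have : Fintype {σ : Set (Subgroup Γ) // IsPChain p σ} := Fintype.ofFinite _
  have hz' : IsClassFun z := hz.conj
  have hp0 : (p : ℤ) ≠ 0 := by exact_mod_cast (Fact.out : p.Prime).ne_zero
  have hG : IsPGroup p (Γ ⧸ G) := IsPGroup.of_card (n := 1) (by
    rw [pow_one]; exact hi)
  have hG1 : G ≠ ⊤ := by
    rintro rfl
    rw [Subgroup.index_top] at hi
    exact (Fact.out : p.Prime).one_lt.ne hi
  have h1 : chs (Sp p (⊤ : Subgroup Γ)) (wt ⊤ (fun H => Lsum ⊤ H z c)) =
      chs (Sp p (⊤ : Subgroup Γ)) (wt G (fun H => Lsum ⊤ H z c)) := by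
    apply mul_left_cancel₀ hp0
    rw [chs_top, chs_top, finsum_eq_sum_of_fintype, finsum_eq_sum_of_fintype, Finset.mul_sum,
      Finset.mul_sum]
    have h2 := lsum_alt hG hG1 hz c
    have h3 : ∀ σ : {σ : Set (Subgroup Γ) // IsPChain p σ},
        (p : ℤ) * ((-1) ^ σ.1.ncard * Lsum ⊤ (⊤ ⊓ chainStabilizer σ.1) z c) =
        p * ((-1) ^ σ.1.ncard * Lsum ⊤ (G ⊓ chainStabilizer σ.1) z c) +
          (p - 1) * ((-1) ^ σ.1.ncard * Lsum G (chainStabilizer σ.1) z c) := by
      intro σ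
      have h4 := stepA hi hz c (chainStabilizer σ.1)
      rw [top_inf_eq]
      linear_combination (-1) ^ σ.1.ncard * h4
    rw [Finset.sum_congr rfl fun σ _ => h3 σ, Finset.sum_add_distrib, ← Finset.mul_sum,
      ← Finset.mul_sum, h2, mul_zero, add_zero]
  rw [ksm_eq red hz' c, h1, decomposition hi, ksm_sub red hz' c]
  congr 1
  refine finsum_congr fun R => ?_
  split_ifs
  · rw [ksm_sub red hz' c]
  · rfl

lemma loc_nw (red : integralClosure ℤ ℂ →+* F) {G : Subgroup Γ} [G.Normal] {z : Γ → F}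
    (hz : InZ G z) (c : F) {R : Subgroup Γ} (hR : R ∈ Cpl p G) :
    Nw p red (R.subgroupOf (Subgroup.normalizer (R : Set Γ))) (fun x => z x) c =
      Nw p red (⊥ : Subgroup ↥(G ⊓ Subgroup.centralizer (R : Set Γ))) (fun x => z x) c := by
  let e := MulEquiv.ofBijective _ (toLoc_bij hR)
  let φ : Subgroup.normalizer (R : Set Γ) →* ↥(G ⊓ Subgroup.centralizer (R : Set Γ)) :=
    e.symm.toMonoidHom.comp (QuotientGroup.mk' _)
  have hφ : Function.Surjective φ :=
    e.symm.surjective.comp (QuotientGroup.mk'_surjective _)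
  have hφ' : ∀ (x : Subgroup.normalizer (R : Set Γ))
      (y : ↥(G ⊓ Subgroup.centralizer (R : Set Γ))), φ x = y ↔ (y : Γ)⁻¹ * x ∈ R := by
    intro x y
    change e.symm (QuotientGroup.mk' _ x) = y ↔ _
    rw [MulEquiv.symm_apply_eq, eq_comm]
    change (QuotientGroup.mk' _) _ = (QuotientGroup.mk' _) x ↔ _
    rw [QuotientGroup.mk'_apply, QuotientGroup.mk'_apply, QuotientGroup.eq]
    exact Iff.rfl
  have h1 : R.subgroupOf (Subgroup.normalizer (R : Set Γ)) =
      (⊥ : Subgroup ↥(G ⊓ Subgroup.centralizer (R : Set Γ))).comap φ := by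
    ext x
    rw [Subgroup.mem_comap, Subgroup.mem_bot, hφ', Subgroup.mem_subgroupOf]
    change (x : Γ) ∈ R ↔ (1 : Γ)⁻¹ * x ∈ R
    rw [inv_one, one_mul]
  rw [h1, Pool.Agent.Y210.NV3.nw_comap φ hφ Pool.Agent.Y930.NV.inf p red _ (fun x => z x)
    (fun g x => hz.conj g x) c]
  congr 1
  funext y
  have hyN : (y : Γ) ∈ Subgroup.normalizer (R : Set Γ) :=
    Subgroup.centralizer_le_normalizer _ y.2.2
  rw [finsum_eq_single _ (⟨y, hyN⟩ : Subgroup.normalizer (R : Set Γ))]
  · rw [if_pos]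
    rw [hφ']
    change (y : Γ)⁻¹ * y ∈ R
    rw [inv_mul_cancel]
    exact R.one_mem
  · intro x hx
    split_ifs with h
    · rw [hφ'] at h
      apply hz.supp
      intro hxG
      apply hx
      have h2 : (y : Γ)⁻¹ * x ∈ G ⊓ R := ⟨G.mul_mem (G.inv_mem y.2.1) hxG, h⟩
      rw [hR.2.2, Subgroup.mem_bot, inv_mul_eq_one] at h2
      exact Subtype.ext h2.symm
    · rfl

lemma card_norm {G : Subgroup Γ} [G.Normal] (hi : G.index = p) {R : Subgroup Γ}
    (hR : R ∈ Cpl p G) : Nat.card (Subgroup.normalizer (R : Set Γ)) =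
      Nat.card ↥(G ⊓ Subgroup.centralizer (R : Set Γ)) * p := by
  have e := MulEquiv.ofBijective _ (toLoc_bij hR)
  have h3 := Subgroup.card_eq_card_quotient_mul_card_subgroup
    (R.subgroupOf (Subgroup.normalizer (R : Set Γ)))
  rw [h3, ← Nat.card_congr e.toEquiv]
  congr 1
  rw [← cpl_card hi hR]
  exact Nat.card_congr (Subgroup.subgroupOfEquivOfLe Subgroup.le_normalizer).toEquiv

/-- `|Γ|` times the number of characters of defect zero with a given value of the central
character -/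
def NSm (p : ℕ) (red : integralClosure ℤ ℂ →+* F) {Γ : Type} [Group Γ] (z : Γ → F) (c : F) : ℤ :=
  (Nat.card Γ : ℤ) * Nw p red (⊥ : Subgroup Γ) z c

/-- **the characters of defect zero and a normal subgroup of index `p`** -/
theorem nsm_formula (red : integralClosure ℤ ℂ →+* F) {G : Subgroup Γ} [G.Normal]
    (hi : G.index = p) {z : Γ → F} (hz : InZ G z) (c : F) :
    NSm p red z c = NSm p red (fun x : G => z x) c -
      ∑ᶠ R : Subgroup Γ, if IsPGroup p R ∧ G ⊔ R = ⊤ ∧ G ⊓ R = ⊥ then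
        NSm p red (fun x : ↥(G ⊓ Subgroup.centralizer (R : Set Γ)) => z x) c else 0 := by
  have : Fintype (Subgroup Γ) := Fintype.ofFinite _
  have hp0 : (p : ℤ) ≠ 0 := by exact_mod_cast (Fact.out : p.Prime).ne_zero
  have hG : IsPGroup p (Γ ⧸ G) := IsPGroup.of_card (n := 1) (by
    rw [pow_one]; exact hi)
  have h1 := Pool.Agent.Y809.NV.clifL p F red Γ G z c hi hz
  have h2 := dgnL' p F red Γ G z c hG hz
  have hcard : (Nat.card Γ : ℤ) = Nat.card G * p := by
    have := G.card_mul_index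
    rw [hi] at this
    exact_mod_cast this.symm
  have h3 : (Nat.card Γ : ℤ) * (numInvDzL p red G z c : ℤ) = p * ∑ R : Subgroup Γ,
      if IsPGroup p R ∧ G ⊔ R = ⊤ ∧ G ⊓ R = ⊥ then
        NSm p red (fun x : ↥(G ⊓ Subgroup.centralizer (R : Set Γ)) => z x) c else 0 := by
    have h4 := congrArg (Nat.cast : ℕ → ℤ) h2
    rw [finsum_eq_sum_of_fintype] at h4
    push_cast at h4
    rw [h4, Finset.mul_sum]
    refine Finset.sum_congr rfl fun R _ => ?_
    split_ifs with hR
    · rw [loc_nw red hz c hR, card_norm hi hR]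
      unfold NSm
      push_cast
      ring
    · rw [mul_zero]
  have h6 : (Nat.card G : ℤ) * (numInvDzL p red G z c : ℤ) = ∑ R : Subgroup Γ,
      if IsPGroup p R ∧ G ⊔ R = ⊤ ∧ G ⊓ R = ⊥ then
        NSm p red (fun x : ↥(G ⊓ Subgroup.centralizer (R : Set Γ)) => z x) c else 0 := by
    apply mul_left_cancel₀ hp0
    rw [← h3, hcard]
    ring
  rw [finsum_eq_sum_of_fintype, ← h6]
  unfold NSm
  rw [hcard]
  have h7 : (p : ℤ) * (Nw p red (⊥ : Subgroup Γ) z c : ℤ) + (numInvDzL p red G z c : ℤ) =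
      (Nw p red (⊥ : Subgroup G) (fun x => z x) c : ℤ) := by
    exact_mod_cast h1
  rw [← h7]
  ring

end

end Pool.Agent.H297.WP
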