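import Pool.Agent.H297.WP.B9

/-!
# The blockwise weight conjecture is decided by congruences modulo `p`: main theorem
-/

set_option autoImplicit false

open scoped Classical

set_option linter.unusedSectionVars false

noncomputable section

namespace Pool.Agent.H297.WP

open Pool.Agent.Y63.KR (IsPChain chainStabilizer conjSub alternatingSum chainSetoid
  alternatingSum_sub mem_chainStabilizer)
open Pool.Agent.Y63.NV
open Pool.Agent.Y63.AWC (IsIrreducibleCharacter pSubgroupSetoid)
open Pool.Agent.R674.KB (kdimh kfilt kfin')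

section

variable {p : ℕ} [hp : Fact p.Prime] {F : Type} [Field F] [IsAlgClosed F] [CharP F p]
  (red : integralClosure ℤ ℂ →+* F)

/-- the difference of the two sides of the blockwise weight conjecture -/
def wB (p : ℕ) {F : Type} [Field F] (red : integralClosure ℤ ℂ →+* F) {G : Type} [Group G]
    (B : (G → F) → F) : ℤ :=
  (numIrrBlock B : ℤ) -
    ((∑ᶠ c : Quotient (pSubgroupSetoid p G), numWtBlock p red c.out.1 B : ℕ) : ℤ)

lemma bmod_of {G : Type} [Group G] [Finite G] {m : ℤ}
    (h : ∀ B : (G → F) → F, IsBlock B → m ∣ wB p red B) : BMod p red G m := by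
  intro B' hB'
  have h1 := h _ (Pool.Agent.Y63.NV.B286.flat_block hB')
  unfold wB at h1
  rw [numIBr_eq]
  convert h1 using 3
  refine finsum_congr fun c => ?_
  rw [if_pos (top_sup_eq _), numDz_eq]

/-- the alternating sum conjecture for the reduced groups of a class implies the weight
conjecture -/
theorem bawc_of_krb_class (X : ∀ (H : Type) [Group H], Prop) (hX : Closed p X)
    (h : ∀ (H : Type) [Group H] [Finite H], X H → Reduced p H → KRB p red H)
    (Γ : Type) [Group Γ] [Finite Γ] (hΓ : XP p X Γ) : BAWC p red Γ := by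
  rw [bawc_iff]
  refine bawc_reduction' red X hX ?_ (Nat.card Γ) Γ le_rfl hΓ
  intro H _ _ hH hR hsmall
  refine bawc_of_krb kdimh kfilt kfin' red (fun σ hσ hne => ?_) (h H hH hR)
  have hXP : XP p X (chainStabilizer σ) :=
    (xp_closed p X hX).sub H ⟨⊤, inferInstance,
      hX.iso _ _ hH ⟨Subgroup.topEquiv.symm⟩, pgroup_top p H⟩ _
  exact hsmall (chainStabilizer σ) hXP (stab_lt hR.radical hσ hne)

/-- **The blockwise weight conjecture is decided by congruences modulo `p`.** -/
theorem bawc_class (X : ∀ (H : Type) [Group H], Prop) (hX : Closed p X)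
    (hW : ∀ (H : Type) [Group H] [Finite H], X H → X (Wr p H)) :
    (∀ (G : Type) [Group G] [Finite G], X G → BAWC p red G) ↔
      ∀ (G : Type) [Group G] [Finite G], X G → ∀ B : (G → F) → F, IsBlock B →
        (p : ℤ) ∣ wB p red B := by
  constructor
  · intro h G _ _ hG B hB
    unfold wB
    rw [h G hG B hB, sub_self]
    exact dvd_zero _
  · intro h G _ _ hG
    have h1 : ∀ (G : Type) [Group G] [Finite G], X G → ∀ B : (G → F) → F, IsBlock B →
        (p : ℤ) ∣ dB p red B := by
      intro G _ _ hG B hB
      obtain ⟨e, h1, -, -, h4⟩ := exists_dB (p := p) red hB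
      rw [h4]
      exact dvd_dZ_of_bmod red (fun σ _ => bmod_of red (h _ (hX.sub G hG _))) h1.cls 1
    have h2 := (krb_class red (fun G _ => X G) (fun G _ _ hG => hW G hG)).2 h1
    exact bawc_of_krb_class red X hX (fun H _ _ hH _ => h2 H hH) G ⟨⊤, inferInstance,
      hX.iso _ _ hG ⟨Subgroup.topEquiv.symm⟩, pgroup_top p G⟩

end

end Pool.Agent.H297.WP
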