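import Pool.Agent.H297.WP.B7

/-!
# The tower of wreath products over a central idempotent
-/

set_option autoImplicit false

open scoped Classical

set_option linter.unusedSectionVars false

noncomputable section

namespace Pool.Agent.H297.WP

open Pool.Agent.Y63.NV

/-- a group with a function to the field -/
structure Pair (F : Type) where
  /-- the group -/
  grp : GrpCat.{0}
  /-- the function -/
  fn : grp → F

/-- the pair `(G ≀ C_p, e ⊗ ⋯ ⊗ e)` -/
def nextP (p : ℕ) {F : Type} [Field F] [Fact p.Prime] (P : Pair F) : Pair F :=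
  ⟨GrpCat.of (Wr p P.grp), zw P.fn⟩

/-- the `n`-th pair of the tower over `(G, e)` -/
def ItP (p : ℕ) {F : Type} [Field F] [Fact p.Prime] (n : ℕ) (P : Pair F) : Pair F :=
  (nextP p)^[n] P

section

variable {p : ℕ} [hp : Fact p.Prime] {F : Type} [Field F] [IsAlgClosed F] [CharP F p]
  (red : integralClosure ℤ ℂ →+* F)

lemma dZ_wr_zero {G : Type} [Group G] [Finite G] {z : G → F} (hz : Idem z)
    (h : dZ p red z 1 = 0) : dZ p red (zw z : Wr p G → F) 1 = 0 := by
  have h1 := dZ_wr red hz
  have h2 : sKb red p z 1 = Nw p red (⊥ : Subgroup G) z 1 := sub_eq_zero.1 h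
  rw [h2, sub_self, sub_self, sub_zero] at h1
  rcases mul_eq_zero.1 h1 with h3 | h3
  · exact absurd h3 (by exact_mod_cast (Fact.out : p.Prime).ne_zero)
  · exact h3

/-- **one group** -/
theorem dZ_tower (G : Type) [Group G] [Finite G] (z : G → F) (hz : Idem z) :
    dZ p red z 1 = 0 ↔
      ∀ n : ℕ, (p : ℤ) ∣ dZ p red (ItP p n ⟨GrpCat.of G, z⟩).fn 1 := by
  constructor
  · intro h n
    have key : ∀ n : ℕ, ∀ P : Pair F, Finite P.grp → Idem P.fn → dZ p red P.fn 1 = 0 →
        dZ p red (ItP p n P).fn 1 = 0 := by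
      intro n
      induction n with
      | zero => exact fun P _ _ h => h
      | succ n ih =>
        intro P hf hi h
        have hs : ItP p (n + 1) P = ItP p n (nextP p P) := Function.iterate_succ_apply _ _ _
        rw [hs]
        exact ih (nextP p P) (inferInstanceAs (Finite (Wr p P.grp))) (zw_idem red hi)
          (dZ_wr_zero red hi h)
    have h1 := key n ⟨GrpCat.of G, z⟩ (inferInstanceAs (Finite G)) hz h
    rw [h1]
    exact dvd_zero _
  · intro h
    refine dZ_eq_zero red (fun H _ w => ∃ n : ℕ, ItP p n ⟨GrpCat.of G, z⟩ =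
      ⟨GrpCat.of H, w⟩) ?_ ?_ G z hz ⟨0, rfl⟩
    · rintro H _ _ w ⟨n, hn⟩
      refine ⟨n + 1, ?_⟩
      have hs : ItP p (n + 1) ⟨GrpCat.of G, z⟩ =
          nextP p (ItP p n ⟨GrpCat.of G, z⟩) := Function.iterate_succ_apply' _ _ _
      rw [hs, hn]
      rfl
    · rintro H _ _ w _ ⟨n, hn⟩
      have h1 := h n
      rw [hn] at h1
      exact h1

end

end Pool.Agent.H297.WP
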