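import Pool.Agent.H297.WP.B1

/-!
# Central characters and direct products
-/

set_option autoImplicit false

open scoped Classical

set_option linter.unusedSectionVars false

noncomputable section

namespace Pool.Agent.H297.WP

open Pool.Agent.R674.Ce (chs wt Sp)
open Pool.Agent.Y63.KR (IsPChain chainStabilizer conjSub alternatingSum chainSetoid)
open Pool.Agent.Y63.NV
open Pool.Agent.Y930.NV (R ind centralValue_eq om om_int Cf_ind redC_mul ind_cast Cf_out mk_out)
open Pool.Agent.Q99.AS (IsCh chSetoid altSum altSum_prod ConjInv card_prod ten Dft Dft_ten'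
  isConj_prod card_mul_altSum cj)
open Pool.Agent.Helper884.IC (IsIrrChar)

/-- the classes of a direct product -/
def ccP (G H : Type) [Group G] [Group H] :
    ConjClasses (G × H) ≃ ConjClasses G × ConjClasses H where
  toFun c := Quotient.liftOn c (fun x => (ConjClasses.mk x.1, ConjClasses.mk x.2))
    (fun x y h => by
      have h' : IsConj x y := h
      obtain ⟨h1, h2⟩ := (isConj_prod (a := x.1) (b := y.1) (c := x.2) (d := y.2)).mp h'
      exact Prod.ext (ConjClasses.mk_eq_mk_iff_isConj.mpr h1)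
        (ConjClasses.mk_eq_mk_iff_isConj.mpr h2))
  invFun q := Quotient.liftOn₂ q.1 q.2 (fun a b => ConjClasses.mk (a, b))
    (fun a b c d h1 h2 => ConjClasses.mk_eq_mk_iff_isConj.mpr (isConj_prod.mpr ⟨h1, h2⟩))
  left_inv c := by
    induction c using Quotient.inductionOn with
    | _ x => rfl
  right_inv q := by
    obtain ⟨a, b⟩ := q
    induction a using Quotient.inductionOn with
    | _ x =>
      induction b using Quotient.inductionOn with
      | _ y => rfl

section

variable {G H : Type} [Group G] [Group H] [Fintype G] [Fintype H]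

lemma ccP_mk (x : G × H) : ccP G H (ConjClasses.mk x) = (ConjClasses.mk x.1, ConjClasses.mk x.2) :=
  rfl

lemma ind_prod (E : ConjClasses (G × H)) (x : G × H) :
    ind ℤ E x = ind ℤ (ccP G H E).1 x.1 * ind ℤ (ccP G H E).2 x.2 := by
  unfold ind
  have h : ConjClasses.mk x = E ↔ ConjClasses.mk x.1 = (ccP G H E).1 ∧
      ConjClasses.mk x.2 = (ccP G H E).2 := by
    rw [← (ccP G H).apply_eq_iff_eq, ccP_mk, Prod.ext_iff]
  by_cases h1 : ConjClasses.mk x.1 = (ccP G H E).1
  · by_cases h2 : ConjClasses.mk x.2 = (ccP G H E).2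
    · rw [if_pos (h.2 ⟨h1, h2⟩), if_pos h1, if_pos h2, mul_one]
    · rw [if_neg (fun h3 => h2 (h.1 h3).2), if_neg h2, mul_zero]
  · rw [if_neg (fun h3 => h1 (h.1 h3).1), if_neg h1, zero_mul]

variable {F : Type} [Field F] (red : integralClosure ℤ ℂ →+* F)

lemma R_ten {θ : G → ℂ} {ψ : H → ℂ} (h1 : IsIrrChar θ) (h2 : IsIrrChar ψ)
    (E : ConjClasses (G × H)) :
    R red (ten θ ψ) (ind ℤ E) = R red θ (ind ℤ (ccP G H E).1) * R red ψ (ind ℤ (ccP G H E).2) := by
  unfold R
  rw [← redC_mul red (om_int h1 (Cf_ind ℤ _)) (om_int h2 (Cf_ind ℤ _))]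
  congr 1
  unfold om ten
  rw [Fintype.sum_prod_type, div_mul_div_comm, Finset.sum_mul_sum]
  congr 1
  refine Finset.sum_congr rfl fun a _ => Finset.sum_congr rfl fun b _ => ?_
  change ((ind ℤ E (a, b) : ℤ) : ℂ) * (θ a * ψ b) = ((ind ℤ (ccP G H E).1 a : ℤ) : ℂ) * θ a *
    (((ind ℤ (ccP G H E).2 b : ℤ) : ℂ) * ψ b)
  rw [ind_prod]
  push_cast
  ring

/-- the central characters of a direct product -/
theorem cvalue_ten {θ : G → ℂ} {ψ : H → ℂ} (h1 : IsIrrChar θ) (h2 : IsIrrChar ψ) {z₁ : G → F}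
    {z₂ : H → F} (hz₁ : IsClassFun z₁) (hz₂ : IsClassFun z₂) :
    centralValue red (ten θ ψ) (fun x => z₁ x.1 * z₂ x.2) =
      centralValue red θ z₁ * centralValue red ψ z₂ := by
  rw [centralValue_eq red (Pool.Agent.Q99.AS.ten_irr h1 h2), centralValue_eq red h1,
    centralValue_eq red h2, Finset.sum_mul_sum, ← Fintype.sum_prod_type']
  rw [← Equiv.sum_comp (ccP G H)]
  refine Finset.sum_congr (Finset.ext fun _ => by simp) fun E _ => ?_
  have e : ConjClasses.mk E.out = E := mk_out E
  have e1 : (ccP G H E).1 = ConjClasses.mk E.out.1 := by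
    conv_lhs => rw [← e]
    rfl
  have e2 : (ccP G H E).2 = ConjClasses.mk E.out.2 := by
    conv_lhs => rw [← e]
    rfl
  rw [R_ten red h1 h2, Cf_out hz₁ e1.symm, Cf_out hz₂ e2.symm]
  ring

end

section knum

variable {F : Type} [Field F] (red : integralClosure ℤ ℂ →+* F)

lemma knum_congr {J K : Type} [Group J] [Group K] [Finite J] [Finite K] (e : J ≃* K) {f : K → F}
    (hf : IsClassFun f) (c : F) : Knum red (fun x => f (e x)) c = Knum red f c := by
  unfold Knum
  have h := Pool.Agent.Q90.WR.card_transport e (fun χ : J → ℂ => centralValue red χ (fun x => f (e x)) = c)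
  refine h.trans (Nat.card_congr (Equiv.subtypeEquivRight fun χ => and_congr_right fun hχ => ?_))
  rw [Pool.Agent.Y624.NV.centralValue_comp red e hχ hf]

lemma finite_irr (J : Type) [Group J] [Finite J] : Finite {χ : J → ℂ // IsIrrChar χ} := by
  have := Fintype.ofFinite J
  exact Finite.of_injective
    (fun χ : {χ : J → ℂ // IsIrrChar χ} =>
      (⟨χ.1, Pool.Agent.Helper884.IC.mem_Irr.mpr χ.2⟩ :
        {χ : J → ℂ // χ ∈ Pool.Agent.Helper884.IC.Irr J}))
    (fun a b hab => Subtype.ext (congrArg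
      (fun z : {χ : J → ℂ // χ ∈ Pool.Agent.Helper884.IC.Irr J} => z.1) hab))

/-- the values of the central characters of the subgroups are finite in number -/
lemma vals_finite {G : Type} [Group G] [Finite G] (z : G → F) :
    {c : F | ∃ (H : Subgroup G) (χ : H → ℂ), IsIrrChar χ ∧
      centralValue red χ (fun x => z x) = c}.Finite := by
  have : ∀ H : Subgroup G, Finite {χ : H → ℂ // IsIrrChar χ} := fun H => finite_irr H
  refine (Set.finite_range (fun q : (Σ H : Subgroup G, {χ : H → ℂ // IsIrrChar χ}) =>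
    centralValue red q.2.1 (fun x : q.1 => z x))).subset ?_
  rintro c ⟨H, χ, hχ, hc⟩
  exact ⟨⟨H, χ, hχ⟩, hc⟩

variable {G G' : Type} [Group G] [Group G'] [Finite G] [Finite G']

lemma knum_prod {z₁ : G → F} {z₂ : G' → F} (hz₁ : IsClassFun z₁) (hz₂ : IsClassFun z₂)
    (I : Finset F) (hI : ∀ c : F, c ∈ I ↔ c ≠ 0 ∧ ∃ (H : Subgroup G) (χ : H → ℂ), IsIrrChar χ ∧
      centralValue red χ (fun x => z₁ x) = c) (H : Subgroup G) (K : Subgroup G') :
    (Knum red (fun x : H.prod K => z₁ x.1.1 * z₂ x.1.2) 1 : ℤ) =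
      ∑ c ∈ I, (Knum red (fun x : H => z₁ x) c : ℤ) * Knum red (fun x : K => z₂ x) c⁻¹ := by
  have := Fintype.ofFinite H
  have := Fintype.ofFinite K
  have h1 : IsClassFun (fun x : H => z₁ x) := fun g x => hz₁ g x
  have h2 : IsClassFun (fun x : K => z₂ x) := fun g x => hz₂ g x
  have h3 : IsClassFun (fun x : H × K => z₁ x.1 * z₂ x.2) := fun g x =>
    congrArg₂ (· * ·) (h1 g.1 x.1) (h2 g.2 x.2)
  have h4 := knum_congr red (Subgroup.prodEquiv H K) h3 1
  have h5 : Knum red (fun x : H.prod K => z₁ x.1.1 * z₂ x.1.2) 1 =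
      Knum red (fun x : H × K => z₁ x.1 * z₂ x.2) 1 := h4
  rw [h5]
  have h6 := card_prod (G := H) (H := K) I
    (fun χ => centralValue red χ (fun x : H × K => z₁ x.1 * z₂ x.2) = 1)
    (fun c θ => centralValue red θ (fun x : H => z₁ x) = c)
    (fun c ψ => centralValue red ψ (fun x : K => z₂ x) = c⁻¹) (by
      intro θ ψ hθ hψ
      rw [cvalue_ten red hθ hψ h1 h2]
      constructor
      · intro h
        have h0 : centralValue red θ (fun x : H => z₁ x) ≠ 0 := left_ne_zero_of_mul_eq_one h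
        refine ⟨_, (hI _).2 ⟨h0, H, θ, hθ, rfl⟩, rfl, ?_⟩
        exact (eq_inv_of_mul_eq_one_right h)
      · rintro ⟨c, hc, e1, e2⟩
        rw [e1, e2, mul_inv_cancel₀ ((hI c).1 hc).1]) (by
      intro θ ψ i _ j _ e1 _ e3 _
      rw [← e1, ← e3])
  unfold Knum
  rw [show Nat.card {χ : H × K → ℂ // Pool.Agent.Y63.AWC.IsIrreducibleCharacter χ ∧
    centralValue red χ (fun x : H × K => z₁ x.1 * z₂ x.2) = 1} = _ from h6]
  push_cast
  rfl

lemma knum_inv {z : G → F} (hz : IsClassFun z) (c : F) :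
    ConjInv (fun H : Subgroup G => (Knum red (fun x : H => z x) c : ℤ)) := by
  intro g H
  have h1 : IsClassFun (fun x : conjSub g H => z x) := fun g x => hz g x
  have h2 := knum_congr red (cj g H) h1 c
  have h3 : (fun x : H => z (cj g H x)) = fun x : H => z x := by
    funext x
    rw [Pool.Agent.Q99.AS.cj_apply, hz]
  rw [h3] at h2
  change (Knum red (fun x : conjSub g H => z x) c : ℤ) = Knum red (fun x : H => z x) c
  rw [h2]

/-- the alternating sum -/
def sKb (p : ℕ) (z : G → F) (c : F) : ℤ :=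
  alternatingSum p G (fun H => (Knum red (fun x : H => z x) c : ℤ))

lemma ksm_eq_sKb {p : ℕ} {z : G → F} (hz : IsClassFun z) (c : F) :
    KSm p red z c = (Nat.card G : ℤ) * sKb red p z c := by
  have : Fintype {σ : Set (Subgroup G) // IsCh p ⊥ σ} := Fintype.ofFinite _
  have : Fintype {σ : Set (Subgroup G) // IsPChain p σ} := Fintype.ofFinite _
  unfold sKb
  rw [← altSum_bot, card_mul_altSum inferInstance _ (knum_inv red hz c)]
  unfold KSm
  rw [finsum_eq_sum_of_fintype]
  let e : {σ : Set (Subgroup G) // IsPChain p σ} ≃ {σ : Set (Subgroup G) // IsCh p ⊥ σ} :=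
    Equiv.subtypeEquivRight fun σ => by rw [isCh_bot]
  exact Fintype.sum_equiv e _ _ fun σ => rfl

end knum

end Pool.Agent.H297.WP
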