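import Pool.Agent.H297.WP.B2
import Pool.Agent.R674.Ce.Congr

/-!
# Idempotents of the centre, isomorphisms and powers
-/

set_option autoImplicit false

open scoped Classical

set_option linter.unusedSectionVars false

noncomputable section

namespace Pool.Agent.H297.WP

open Pool.Agent.R674.Ce (conjSub_map_equiv)
open Pool.Agent.Y63.KR (IsPChain chainStabilizer conjSub alternatingSum chainSetoid
  mem_chainStabilizer)
open Pool.Agent.Y63.NV
open Pool.Agent.Q99.AS (IsCh chSetoid altSum altSum_prod ConjInv card_prod ten Dft Dft_ten'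
  isConj_prod card_mul_altSum cj)
open Pool.Agent.Helper884.IC (IsIrrChar)

section

variable {p : ℕ} {F : Type} [Field F] (red : integralClosure ℤ ℂ →+* F)
  {Γ Δ : Type} [Group Γ] [Finite Γ] [Group Δ] [Finite Δ]

theorem ksm_congr (e : Δ ≃* Γ) {z : Γ → F} (hz : IsClassFun z) (c : F) :
    KSm p red (fun x => z (e x)) c = KSm p red z c := by
  unfold KSm
  have hinj : Function.Injective (fun P : Subgroup Δ => P.map e.toMonoidHom) :=
    Subgroup.map_injective e.injective
  have hle : ∀ P Q : Subgroup Δ, P.map e.toMonoidHom ≤ Q.map e.toMonoidHom ↔ P ≤ Q := fun P Q =>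
    Subgroup.map_le_map_iff_of_injective e.injective
  have hback : ∀ P : Subgroup Γ, (P.comap e.toMonoidHom).map e.toMonoidHom = P := fun P =>
    Subgroup.map_comap_eq_self_of_surjective e.surjective P
  refine finsum_eq_of_bijective (fun σ : {σ : Set (Subgroup Δ) // IsPChain p σ} =>
    (⟨(fun P : Subgroup Δ => P.map e.toMonoidHom) '' σ.1, ⟨?_, ?_, ?_⟩⟩ :
      {σ : Set (Subgroup Γ) // IsPChain p σ})) ⟨?_, ?_⟩ ?_
  · rintro _ ⟨P, hP, rfl⟩ _ ⟨Q, hQ, rfl⟩ _
    rcases σ.2.chain.total hP hQ with h | h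
    · exact Or.inl ((hle P Q).2 h)
    · exact Or.inr ((hle Q P).2 h)
  · rintro _ ⟨P, hP, rfl⟩
    exact (σ.2.isPGroup P hP).map _
  · rintro _ ⟨P, hP, rfl⟩ h
    exact σ.2.ne_bot P hP ((Subgroup.map_eq_bot_iff_of_injective P e.injective).1 h)
  · intro σ τ h
    have h1 := congrArg Subtype.val h
    exact Subtype.ext (hinj.image_injective h1)
  · rintro ⟨τ, h1, h2, h3⟩
    refine ⟨⟨(fun P : Subgroup Γ => P.comap e.toMonoidHom) '' τ, ⟨?_, ?_, ?_⟩⟩, ?_⟩
    · rintro _ ⟨P, hP, rfl⟩ _ ⟨Q, hQ, rfl⟩ _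
      rcases h1.total hP hQ with h | h
      · exact Or.inl (Subgroup.comap_mono h)
      · exact Or.inr (Subgroup.comap_mono h)
    · rintro _ ⟨P, hP, rfl⟩
      exact (h2 P hP).comap_of_injective _ e.injective
    · rintro _ ⟨P, hP, rfl⟩ h
      apply h3 P hP
      rw [← hback P]
      change (P.comap e.toMonoidHom).map e.toMonoidHom = ⊥
      rw [show P.comap e.toMonoidHom = ⊥ from h, Subgroup.map_bot]
    · apply Subtype.ext
      change (fun P : Subgroup Δ => P.map e.toMonoidHom) ''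
        ((fun P : Subgroup Γ => P.comap e.toMonoidHom) '' τ) = τ
      rw [← Set.image_comp]
      ext P
      constructor
      · rintro ⟨Q, hQ, rfl⟩
        change (Q.comap e.toMonoidHom).map e.toMonoidHom ∈ τ
        rw [hback]
        exact hQ
      · intro hP
        exact ⟨P, hP, hback P⟩
  · intro σ
    change _ = (-1) ^ ((fun P : Subgroup Δ => P.map e.toMonoidHom) '' σ.1).ncard *
      ((Nat.card (chainStabilizer ((fun P : Subgroup Δ => P.map e.toMonoidHom) '' σ.1)) : ℤ) *
        Knum red (fun x : chainStabilizer ((fun P : Subgroup Δ => P.map e.toMonoidHom) '' σ.1) =>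
          z x) c)
    rw [Set.ncard_image_of_injective _ hinj]
    congr 1
    have hst : ∀ x : Δ, x ∈ chainStabilizer σ.1 ↔
        e x ∈ chainStabilizer ((fun P : Subgroup Δ => P.map e.toMonoidHom) '' σ.1) := by
      intro x
      rw [mem_chainStabilizer, mem_chainStabilizer]
      constructor
      · rintro h _ ⟨P, hP, rfl⟩
        change conjSub (e x) (P.map e.toMonoidHom) = P.map e.toMonoidHom
        rw [conjSub_map_equiv, h P hP]
      · intro h P hP
        have h4 := h _ ⟨P, hP, rfl⟩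
        change conjSub (e x) (P.map e.toMonoidHom) = P.map e.toMonoidHom at h4
        rw [conjSub_map_equiv] at h4
        exact hinj h4
    let e' : chainStabilizer σ.1 ≃*
        chainStabilizer ((fun P : Subgroup Δ => P.map e.toMonoidHom) '' σ.1) :=
      { toFun := fun x => ⟨e x, (hst x).1 x.2⟩
        invFun := fun y => ⟨e.symm y, (hst _).2 (by rw [e.apply_symm_apply]; exact y.2)⟩
        left_inv := fun x => Subtype.ext (e.symm_apply_apply _)
        right_inv := fun y => Subtype.ext (e.apply_symm_apply _)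
        map_mul' := fun x y => Subtype.ext (map_mul e _ _) }
    have h5 := knum_congr red e' (f := fun x => z x) (fun g x => hz g x) c
    rw [← h5, Nat.card_congr e'.toEquiv]
    rfl

theorem sKb_congr (e : Δ ≃* Γ) {z : Γ → F} (hz : IsClassFun z) (c : F) :
    sKb red p (fun x => z (e x)) c = sKb red p z c := by
  have h0 : (Nat.card Γ : ℤ) ≠ 0 := by exact_mod_cast Nat.card_pos.ne'
  have hz' : IsClassFun (fun x => z (e x)) := fun g x => by
    change z (e (g * x * g⁻¹)) = z (e x)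
    rw [map_mul, map_mul, map_inv, hz]
  have h := ksm_congr (p := p) red e hz c
  rw [ksm_eq_sKb red hz, ksm_eq_sKb red hz', Nat.card_congr e.toEquiv] at h
  exact mul_left_cancel₀ h0 h

lemma nw_bot_congr (e : Δ ≃* Γ) {z : Γ → F} (hz : IsClassFun z) (c : F) :
    Nw p red (⊥ : Subgroup Δ) (fun x => z (e x)) c = Nw p red (⊥ : Subgroup Γ) z c :=
  Pool.Agent.Y624.NV.nw_congr p red e (fun x => by
    rw [Subgroup.mem_bot, Subgroup.mem_bot, ← map_one e, e.injective.eq_iff]) (fun _ => rfl) hz c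

/-- `z` is an idempotent of the centre of the group algebra -/
structure Idem (z : Γ → F) : Prop where
  cls : IsClassFun z
  sq : conv z z = z

lemma Idem.comp (e : Δ ≃* Γ) {z : Γ → F} (h : Idem z) : Idem (fun x => z (e x)) where
  cls g x := by
    change z (e (g * x * g⁻¹)) = z (e x)
    rw [map_mul, map_mul, map_inv, h.cls]
  sq := by
    funext x
    have h1 := congrFun h.sq (e x)
    rw [← h1]
    unfold conv
    rw [← finsum_comp_equiv e.toEquiv]
    refine finsum_congr fun y => ?_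
    change z (e y) * z (e (y⁻¹ * x)) = z (e y) * z ((e y)⁻¹ * e x)
    rw [map_mul, map_inv]

lemma Idem.prod {z₁ : Γ → F} {z₂ : Δ → F} (h₁ : Idem z₁) (h₂ : Idem z₂) :
    Idem (fun x : Γ × Δ => z₁ x.1 * z₂ x.2) where
  cls g x := congrArg₂ (· * ·) (h₁.cls g.1 x.1) (h₂.cls g.2 x.2)
  sq := by
    have := Fintype.ofFinite Γ
    have := Fintype.ofFinite Δ
    funext x
    have e1 := congrFun h₁.sq x.1
    have e2 := congrFun h₂.sq x.2
    unfold conv at e1 e2 ⊢
    rw [finsum_eq_sum_of_fintype] at e1 e2 ⊢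
    rw [Fintype.sum_prod_type, ← e1, ← e2, Finset.sum_mul_sum]
    refine Finset.sum_congr rfl fun a _ => Finset.sum_congr rfl fun b _ => ?_
    change z₁ a * z₂ b * (z₁ (a⁻¹ * x.1) * z₂ (b⁻¹ * x.2)) = _
    ring

/-- a block takes the values `0` and `1` at idempotents -/
lemma block_idem {B : (Γ → F) → F} (hB : IsBlock B) {z : Γ → F} (hz : Idem z) :
    B z = 0 ∨ B z = 1 := by
  have h := hB.mul z z hz.cls hz.cls
  rw [hz.sq] at h
  rcases eq_or_ne (B z) 0 with h1 | h1
  · exact Or.inl h1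
  · right
    exact (mul_eq_left₀ h1).mp h.symm

end

section

variable {p : ℕ} [Fact p.Prime] {F : Type} [Field F] [IsAlgClosed F] [CharP F p]
  (red : integralClosure ℤ ℂ →+* F)
  {Γ Δ : Type} [Group Γ] [Finite Γ] [Group Δ] [Finite Δ]

lemma sKb_zero {z : Γ → F} (hz : Idem z) {c : F} (h0 : c ≠ 0) (h1 : c ≠ 1) :
    sKb red p z c = 0 := by
  unfold sKb alternatingSum
  refine finsum_eq_zero_of_forall_eq_zero fun d => ?_
  have : IsEmpty {χ : chainStabilizer d.out.1 → ℂ //
      Pool.Agent.Y63.AWC.IsIrreducibleCharacter χ ∧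
        centralValue red χ (fun x : chainStabilizer d.out.1 => z x) = c} := by
    constructor
    rintro ⟨χ, hχ, hc⟩
    have hB := Pool.Agent.R674.KB.kblk p F red Γ d.out.1 χ d.out.2 hχ
    rcases block_idem hB hz with h | h
    · exact h0 (hc.symm.trans h)
    · exact h1 (hc.symm.trans h)
  have h2 : Knum red (fun x : chainStabilizer d.out.1 => z x) c = 0 := by
    unfold Knum
    exact Nat.card_of_isEmpty
  beta_reduce
  rw [h2, Nat.cast_zero, mul_zero]

/-- **the alternating sums of a direct product** -/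
theorem sKb_prod {z₁ : Γ → F} {z₂ : Δ → F} (h₁ : Idem z₁) (h₂ : Idem z₂) :
    sKb red p (fun x : Γ × Δ => z₁ x.1 * z₂ x.2) 1 = sKb red p z₁ 1 * sKb red p z₂ 1 := by
  have hfin : {c : F | c ≠ 0 ∧ ∃ (H : Subgroup Γ) (χ : H → ℂ), IsIrrChar χ ∧
      centralValue red χ (fun x => z₁ x) = c}.Finite :=
    (vals_finite red z₁).subset fun c hc => hc.2
  have hI : ∀ c : F, c ∈ hfin.toFinset ↔ c ≠ 0 ∧ ∃ (H : Subgroup Γ) (χ : H → ℂ), IsIrrChar χ ∧
      centralValue red χ (fun x => z₁ x) = c := fun c => by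
    rw [Set.Finite.mem_toFinset]
    exact Iff.rfl
  have h := altSum_prod (p := p) (G₁ := Γ) (G₂ := Δ) (O₁ := ⊥) (O₂ := ⊥) IsPGroup.of_bot
    IsPGroup.of_bot inferInstance inferInstance hfin.toFinset
    (fun L => (Knum red (fun x : L => z₁ x.1.1 * z₂ x.1.2) 1 : ℤ))
    (fun c H => (Knum red (fun x : H => z₁ x) c : ℤ))
    (fun c K => (Knum red (fun x : K => z₂ x) c⁻¹ : ℤ))
    (knum_inv red (h₁.prod h₂).cls 1) (fun c => knum_inv red h₁.cls c)
    (fun c => knum_inv red h₂.cls c⁻¹)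
    (fun H K => knum_prod red h₁.cls h₂.cls _ hI H K)
  rw [Subgroup.bot_prod_bot, altSum_bot] at h
  have h3 : sKb red p (fun x : Γ × Δ => z₁ x.1 * z₂ x.2) 1 =
      ∑ c ∈ hfin.toFinset, sKb red p z₁ c * sKb red p z₂ c⁻¹ := by
    refine h.trans (Finset.sum_congr rfl fun c _ => ?_)
    rw [altSum_bot, altSum_bot]
    rfl
  rw [h3]
  by_cases h1 : (1 : F) ∈ hfin.toFinset
  · rw [Finset.sum_eq_single_of_mem 1 h1, inv_one]
    intro c hc hc1
    rw [sKb_zero red h₁ ((hI c).1 hc).1 hc1, zero_mul]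
  · have h4 : sKb red p z₁ 1 = 0 := by
      unfold sKb alternatingSum
      refine finsum_eq_zero_of_forall_eq_zero fun d => ?_
      have : IsEmpty {χ : chainStabilizer d.out.1 → ℂ //
          Pool.Agent.Y63.AWC.IsIrreducibleCharacter χ ∧
            centralValue red χ (fun x : chainStabilizer d.out.1 => z₁ x) = 1} := by
        constructor
        rintro ⟨χ, hχ, hc⟩
        exact h1 ((hI 1).2 ⟨one_ne_zero, _, χ, hχ, hc⟩)
      have h2 : Knum red (fun x : chainStabilizer d.out.1 => z₁ x) 1 = 0 := by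
        unfold Knum
        exact Nat.card_of_isEmpty
      beta_reduce
      rw [h2, Nat.cast_zero, mul_zero]
    rw [h4, zero_mul]
    refine Finset.sum_eq_zero fun c hc => ?_
    have hc1 : c ≠ 1 := by
      rintro rfl
      exact h1 hc
    rw [sKb_zero red h₁ ((hI c).1 hc).1 hc1, zero_mul]

omit [Fact p.Prime] [IsAlgClosed F] [CharP F p] in
lemma isWt_bot {χ : Γ → ℂ} : IsWt p (⊥ : Subgroup Γ) χ ↔ IsIrrChar χ ∧ Dft p 0 χ := by
  constructor
  · rintro ⟨h1, -, n, h3, h4⟩
    refine ⟨h1, n, h3, ?_⟩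
    rw [Subgroup.card_bot, Nat.factorization_one] at h4
    simpa using h4
  · rintro ⟨h1, n, h3, h4⟩
    refine ⟨h1, fun q hq x => ?_, n, h3, ?_⟩
    · rw [Subgroup.mem_bot.mp hq, one_mul]
    · rw [Subgroup.card_bot, Nat.factorization_one]
      simpa using h4

/-- **the characters of defect zero of a direct product** -/
theorem nw_prod {z₁ : Γ → F} {z₂ : Δ → F} (h₁ : Idem z₁) (h₂ : Idem z₂) :
    Nw p red (⊥ : Subgroup (Γ × Δ)) (fun x => z₁ x.1 * z₂ x.2) 1 =
      Nw p red (⊥ : Subgroup Γ) z₁ 1 * Nw p red (⊥ : Subgroup Δ) z₂ 1 := by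
  have := Fintype.ofFinite Γ
  have := Fintype.ofFinite Δ
  have h := card_prod (G := Γ) (H := Δ) (Finset.univ : Finset Unit)
    (fun χ => Dft p 0 χ ∧ centralValue red χ (fun x : Γ × Δ => z₁ x.1 * z₂ x.2) = 1)
    (fun _ θ => Dft p 0 θ ∧ centralValue red θ z₁ = 1)
    (fun _ ψ => Dft p 0 ψ ∧ centralValue red ψ z₂ = 1) (by
      intro θ ψ hθ hψ
      rw [cvalue_ten red hθ hψ h₁.cls h₂.cls]
      constructor
      · rintro ⟨h0, h0'⟩
        obtain ⟨i, hi⟩ := Pool.Agent.Q99.AS.Dft_exists p hθ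
        obtain ⟨j, hj⟩ := Pool.Agent.Q99.AS.Dft_exists p hψ
        have h1 := Pool.Agent.Q99.AS.Dft_unique (Dft_ten' hθ hψ hi hj) h0
        obtain ⟨rfl, rfl⟩ : i = 0 ∧ j = 0 := by omega
        have a1 := block_idem (Pool.Agent.Y930.NV.cvh F red Γ θ hθ) h₁
        have a2 := block_idem (Pool.Agent.Y930.NV.cvh F red Δ ψ hψ) h₂
        refine ⟨(), Finset.mem_univ _, ⟨hi, ?_⟩, ⟨hj, ?_⟩⟩
        · rcases a1 with a1 | a1
          · rw [a1, zero_mul] at h0'
            exact absurd h0'.symm one_ne_zero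
          · exact a1
        · rcases a2 with a2 | a2
          · rw [a2, mul_zero] at h0'
            exact absurd h0'.symm one_ne_zero
          · exact a2
      · rintro ⟨-, -, h1, h2⟩
        exact ⟨Dft_ten' hθ hψ h1.1 h2.1, by rw [h1.2, h2.2, one_mul]⟩) (by intros; rfl)
  rw [Finset.univ_unique, Finset.sum_singleton] at h
  unfold Nw
  simp only [isWt_bot, and_assoc] at h ⊢
  exact h

/-- the tensor power of a function -/
def tpw {ι : Type} [Fintype ι] {G : Type} (z : G → F) : (ι → G) → F := fun f => ∏ i, z (f i)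

/-- powers -/
theorem pow_fin_b {z : Γ → F} (hz : Idem z) : ∀ n : ℕ,
    Idem (tpw z : (Fin (n + 1) → Γ) → F) ∧
    sKb red p (tpw z : (Fin (n + 1) → Γ) → F) 1 = sKb red p z 1 ^ (n + 1) ∧
      Nw p red (⊥ : Subgroup (Fin (n + 1) → Γ)) (tpw z) 1 =
        Nw p red (⊥ : Subgroup Γ) z 1 ^ (n + 1) := by
  intro n
  induction n with
  | zero =>
    let e : (Fin (0 + 1) → Γ) ≃* Γ := (MulEquiv.funUnique (Fin 1) Γ : (Fin 1 → Γ) ≃* Γ)
    have he : (tpw z : (Fin (0 + 1) → Γ) → F) = fun f => z (e f) := by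
      funext f
      unfold tpw
      rw [Fin.prod_univ_succ]
      simp
      rfl
    rw [he, sKb_congr red e hz.cls, nw_bot_congr red e hz.cls]
    exact ⟨hz.comp e, (pow_one _).symm, (pow_one _).symm⟩
  | succ n ih =>
    let e : (Fin (n + 1 + 1) → Γ) ≃* Γ × (Fin (n + 1) → Γ) :=
      { toFun := fun f => (f 0, fun i => f i.succ)
        invFun := fun q => Fin.cons q.1 q.2
        left_inv := fun f => by
          funext i
          refine Fin.cases ?_ (fun i => ?_) i
          · rfl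
          · rfl
        right_inv := fun q => rfl
        map_mul' := fun a b => rfl }
    have he : (tpw z : (Fin (n + 1 + 1) → Γ) → F) =
        fun f => (fun x : Γ × (Fin (n + 1) → Γ) => z x.1 * tpw z x.2) (e f) := by
      funext f
      unfold tpw
      rw [Fin.prod_univ_succ]
      rfl
    have hI := hz.prod ih.1
    rw [he]
    refine ⟨hI.comp e, ?_, ?_⟩
    · rw [sKb_congr red e hI.cls, sKb_prod red hz ih.1, ih.2.1]
      exact (pow_succ' _ _).symm
    · rw [nw_bot_congr red e hI.cls, nw_prod red hz ih.1, ih.2.2]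
      exact (pow_succ' _ _).symm

lemma pow_cy_b {z : Γ → F} (hz : Idem z) : Idem (tpw z : (Cy p → Γ) → F) ∧
    sKb red p (tpw z : (Cy p → Γ) → F) 1 = sKb red p z 1 ^ p ∧
      Nw p red (⊥ : Subgroup (Cy p → Γ)) (tpw z) 1 = Nw p red (⊥ : Subgroup Γ) z 1 ^ p := by
  obtain ⟨m, hm⟩ : ∃ m, p = m + 1 := ⟨p - 1, by have := (Fact.out : p.Prime).pos; omega⟩
  have hc : Nat.card (Cy p) = Nat.card (Fin (m + 1)) := by
    rw [Nat.card_fin, ← hm]
    exact Nat.card_zmod p
  let s : Cy p ≃ Fin (m + 1) := Fintype.equivOfCardEq (by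
      rw [← Nat.card_eq_fintype_card, ← Nat.card_eq_fintype_card]; exact hc)
  let e : (Cy p → Γ) ≃* (Fin (m + 1) → Γ) := MulEquiv.arrowCongr s (MulEquiv.refl Γ)
  have he : (tpw z : (Cy p → Γ) → F) = fun f => tpw z (e f) := by
    funext f
    unfold tpw
    exact Fintype.prod_equiv s _ _ fun i => by
      change z (f i) = z (f (s.symm (s i)))
      rw [s.symm_apply_apply]
  obtain ⟨h1, h2, h3⟩ := pow_fin_b (p := p) red hz m
  rw [he]
  refine ⟨h1.comp e, ?_, ?_⟩
  · rw [sKb_congr red e h1.cls, h2, ← hm]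
  · rw [nw_bot_congr red e h1.cls, h3, ← hm]

end

end Pool.Agent.H297.WP
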