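import Pool.Agent.H297.WP.B3
import Pool.Agent.R663.GA.Gal

/-!
# The Frobenius map and reduced central characters
-/

set_option autoImplicit false

open scoped Classical

set_option linter.unusedSectionVars false

noncomputable section

namespace Pool.Agent.H297.WP

open Polynomial
open Pool.Agent.Y63.KR (IsPChain chainStabilizer conjSub alternatingSum chainSetoid
  mem_chainStabilizer)
open Pool.Agent.Y63.NV
open Pool.Agent.Y63.AWC (IsIrreducibleCharacter)
open Pool.Agent.Y930.NV (R ind centralValue_eq om om_int Cf_ind redC_mul ind_cast Cf_out mk_out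
  redC_of irr_one_ne)
open Pool.Agent.Helper884.IC (IsIrrChar)
open Pool.Agent.R721.CD (IsRepChar)

/-- reduction and an automorphism over the Frobenius map -/
theorem red_frob {F : Type} [Field F] {p : ℕ} [hp : Fact p.Prime] [CharP F p]
    (red : integralClosure ℤ ℂ →+* F) {n m k : ℕ} (hn : n = p ^ k * m) (hn0 : n ≠ 0) {w : ℕ}
    (hw : w ≡ p [MOD m]) {σ : ℂ ≃+* ℂ} (hσ : ∀ z : ℂ, z ^ n = 1 → σ z = z ^ w) {a : ℂ}
    (ha : IsIntegral ℤ a)
    (hK : a ∈ IntermediateField.adjoin ℚ {Complex.exp (2 * Real.pi * Complex.I / n)}) :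
    redC red (σ a) = redC red a ^ p := by
  set z0 : ℂ := Complex.exp (2 * Real.pi * Complex.I / n) with hz0
  have hζ0 : IsPrimitiveRoot z0 n := Complex.isPrimitiveRoot_exp n hn0
  have hint0 : IsIntegral ℤ z0 := hζ0.isIntegral (Nat.pos_of_ne_zero hn0)
  have hintQ : IsIntegral ℚ z0 := hint0.tower_top
  have hne : NeZero n := ⟨hn0⟩
  have hcyc : IsCyclotomicExtension {n} ℚ (IntermediateField.adjoin ℚ {z0}) := by
    change IsCyclotomicExtension {n} ℚ (IntermediateField.adjoin ℚ {z0}).toSubalgebra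
    rw [IntermediateField.adjoin_simple_toSubalgebra_of_isAlgebraic hintQ.isAlgebraic]
    exact hζ0.adjoin_isCyclotomicExtension ℚ
  set K := IntermediateField.adjoin ℚ {z0} with hKd
  set ζ : K := ⟨z0, IntermediateField.mem_adjoin_simple_self ℚ z0⟩ with hζ
  have hζp : IsPrimitiveRoot ζ n := by
    refine IsPrimitiveRoot.of_map_of_injective (f := algebraMap K ℂ) ?_
      (algebraMap K ℂ).injective
    exact hζ0
  have hcl := IsCyclotomicExtension.Rat.isIntegralClosure_adjoin_singleton hζp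
  have hy : IsIntegral ℤ (⟨a, hK⟩ : K) :=
    (isIntegral_algebraMap_iff (A := K) (B := ℂ) (R := ℤ) (x := ⟨a, hK⟩)
      Subtype.val_injective).1 ha
  obtain ⟨y, hy'⟩ := hcl.isIntegral_iff.1 hy
  have hymem : ∀ w : K, w ∈ Algebra.adjoin ℤ {ζ} → ∃ g : ℤ[X], aeval ζ g = w := by
    intro w hw
    rw [Algebra.adjoin_singleton_eq_range_aeval] at hw
    exact hw
  obtain ⟨g, hg⟩ := hymem y.1 y.2
  have e2 : aeval z0 g = (((aeval ζ g : K)) : ℂ) := by
    have h3 := aeval_algHom_apply ((algebraMap K ℂ).toIntAlgHom) ζ g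
    exact h3
  have e3 : (aeval ζ g : K) = ⟨a, hK⟩ := by
    rw [← hy']
    exact hg
  have e4 : a = aeval z0 g := by
    rw [e2, e3]
  have hred : ∀ z : ℂ, ∀ hz : IsIntegral ℤ z, redC red (aeval z g) =
      aeval (red ⟨z, hz⟩) g := by
    intro z hz
    have h1 : aeval z g = ((aeval (⟨z, hz⟩ : integralClosure ℤ ℂ) g : integralClosure ℤ ℂ) : ℂ) := by
      have h3 := aeval_algHom_apply ((integralClosure ℤ ℂ).val) (⟨z, hz⟩ : integralClosure ℤ ℂ) g
      exact h3
    have h2 : IsIntegral ℤ (aeval z g) := by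
      rw [h1]
      exact (aeval (⟨z, hz⟩ : integralClosure ℤ ℂ) g : integralClosure ℤ ℂ).2
    rw [redC_of red h2]
    have h4 : (⟨aeval z g, h2⟩ : integralClosure ℤ ℂ) =
        aeval (⟨z, hz⟩ : integralClosure ℤ ℂ) g := Subtype.ext h1
    rw [h4]
    exact (aeval_algHom_apply (red.toIntAlgHom) (⟨z, hz⟩ : integralClosure ℤ ℂ) g).symm
  have e5 : σ a = aeval (z0 ^ w) g := by
    rw [e4, ← hσ z0 hζ0.pow_eq_one]
    exact (aeval_algHom_apply ((σ : ℂ →+* ℂ).toIntAlgHom) z0 g).symm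
  have hint1 : IsIntegral ℤ (z0 ^ w) := hint0.pow w
  rw [e5, hred (z0 ^ w) hint1, e4, hred z0 hint0]
  have e6 : (⟨z0 ^ w, hint1⟩ : integralClosure ℤ ℂ) = ⟨z0, hint0⟩ ^ w := Subtype.ext rfl
  rw [e6, map_pow]
  set u := red ⟨z0, hint0⟩ with hu
  have h5 : u ^ n = 1 := by
    rw [hu, ← map_pow]
    have : (⟨z0, hint0⟩ : integralClosure ℤ ℂ) ^ n = 1 := Subtype.ext hζ0.pow_eq_one
    rw [this, map_one]
  have : ExpChar F p := ExpChar.prime Fact.out
  have h6 : u ^ m = 1 := by
    rw [hn] at h5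
    exact (ExpChar.pow_prime_pow_mul_eq_one_iff p k m u).1 h5
  rw [pow_eq_pow_mod w h6, hw, ← pow_eq_pow_mod p h6]
  exact aeval_algHom_apply ((frobenius F p).toIntAlgHom) u g

lemma exists_w {p : ℕ} [hp : Fact p.Prime] {n : ℕ} (hn0 : n ≠ 0) :
    ∃ w : ℕ, w.Coprime n ∧ w ≡ p [MOD n / p ^ n.factorization p] := by
  have hco : (p ^ n.factorization p).Coprime (n / p ^ n.factorization p) :=
    (Nat.coprime_ordCompl hp.out hn0).pow_left _
  obtain ⟨w, hw1, hw2⟩ := Nat.chineseRemainder hco 1 p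
  refine ⟨w, ?_, hw2⟩
  have h1 : n = p ^ n.factorization p * (n / p ^ n.factorization p) :=
    (Nat.ordProj_mul_ordCompl_eq_self _ _).symm
  rw [h1]
  refine Nat.Coprime.mul_right ?_ ?_
  · have h2 := hw1.gcd_eq
    rw [Nat.gcd_one_left] at h2
    exact h2
  · have h2 := hw2.gcd_eq
    have h3 : p.Coprime (n / p ^ n.factorization p) := Nat.coprime_ordCompl hp.out hn0
    exact h2.trans h3

section

variable {F : Type} [Field F] {p : ℕ} [hp : Fact p.Prime] [CharP F p]
  (red : integralClosure ℤ ℂ →+* F) {H : Type} [Group H] [Finite H]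

/-- an automorphism which induces the Frobenius map on the reduced central characters -/
theorem exists_twist (H : Type) [Group H] [Finite H] : ∃ σ : ℂ ≃+* ℂ, ∀ (χ : H → ℂ),
    IsIrreducibleCharacter χ → ∀ (f : H → F),
      centralValue red (fun x => σ (χ x)) (fun x => f x ^ p) = centralValue red χ f ^ p := by
  have := Fintype.ofFinite H
  have hn0 : Nat.card H ≠ 0 := Nat.card_pos.ne'
  obtain ⟨w, hw1, hw2⟩ := exists_w (p := p) hn0
  obtain ⟨σ, hσ⟩ := Pool.Agent.R677.FV.exists_sigma (Nat.card H) hn0 w hw1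
  refine ⟨σ, fun χ h f => ?_⟩
  have hexp : ExpChar F p := ExpChar.prime Fact.out
  rw [centralValue_eq red (Pool.Agent.Q90.WR.irr_gal σ h), centralValue_eq red h]
  rw [sum_pow_char p]
  refine Finset.sum_congr rfl fun C _ => ?_
  rw [mul_pow]
  congr 1
  unfold R
  rw [ind_cast]
  have e1 : om (fun y => σ (χ y)) (ind ℂ C) = σ (om χ (ind ℂ C)) := by
    unfold om
    rw [map_div₀, map_sum]
    congr 1
    refine Finset.sum_congr rfl fun y _ => ?_
    rw [map_mul]
    congr 1
    unfold ind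
    split_ifs
    · rw [map_one]
    · rw [map_zero]
  have hint : IsIntegral ℤ (om χ (ind ℂ C)) := by
    rw [← ind_cast]
    exact om_int h (Cf_ind ℤ _)
  rw [e1]
  have hnm : Nat.card H = p ^ (Nat.card H).factorization p *
      (Nat.card H / p ^ (Nat.card H).factorization p) :=
    (Nat.ordProj_mul_ordCompl_eq_self _ _).symm
  refine red_frob red hnm hn0 hw2 hσ hint ?_
  have hζ := Complex.isPrimitiveRoot_exp (Nat.card H) hn0
  have : NeZero (Nat.card H) := ⟨hn0⟩
  refine Pool.Agent.R663.GA.om_mem (IntermediateField.adjoin ℚ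
    {Complex.exp (2 * Real.pi * Complex.I / (Nat.card H : ℕ))}).toSubfield ?_ h _
  intro z hz
  obtain ⟨i, -, rfl⟩ := hζ.eq_pow_of_pow_eq_one hz
  exact pow_mem (IntermediateField.mem_adjoin_simple_self ℚ _) i

/-- the conjugation of characters as a permutation -/
def galE (σ : ℂ ≃+* ℂ) (H : Type) : (H → ℂ) ≃ (H → ℂ) where
  toFun χ x := σ (χ x)
  invFun χ x := σ.symm (χ x)
  left_inv _ := funext fun _ => σ.symm_apply_apply _
  right_inv _ := funext fun _ => σ.apply_symm_apply _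

lemma irr_galE (σ : ℂ ≃+* ℂ) {χ : H → ℂ} :
    IsIrrChar (galE σ H χ) ↔ IsIrrChar χ := by
  constructor
  · intro h
    have h1 := Pool.Agent.Q90.WR.irr_gal σ.symm h
    have h2 : (fun g => σ.symm (galE σ H χ g)) = χ := funext fun x => σ.symm_apply_apply _
    rwa [h2] at h1
  · exact fun h => Pool.Agent.Q90.WR.irr_gal σ h

theorem knum_twist (f : H → F) (c : F) :
    Knum red (fun x => f x ^ p) (c ^ p) = Knum red f c := by
  have hexp : ExpChar F p := ExpChar.prime Fact.out
  obtain ⟨σ, hσ⟩ := exists_twist (p := p) red H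
  unfold Knum
  symm
  refine Nat.card_congr (Equiv.subtypeEquiv (galE σ H) fun χ => ?_)
  constructor
  · rintro ⟨h1, h2⟩
    refine ⟨(irr_galE σ).2 h1, ?_⟩
    rw [← h2]
    exact hσ χ h1 f
  · rintro ⟨h1, h2⟩
    have h1' : IsIrrChar χ := (irr_galE σ).1 h1
    refine ⟨h1', ?_⟩
    have h3 := hσ χ h1' f
    have h4 : centralValue red χ f ^ p = c ^ p := h3.symm.trans h2
    exact frobenius_inj F p h4

theorem nw_twist (f : H → F) (c : F) :
    Nw p red (⊥ : Subgroup H) (fun x => f x ^ p) (c ^ p) = Nw p red (⊥ : Subgroup H) f c := by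
  have hexp : ExpChar F p := ExpChar.prime Fact.out
  obtain ⟨σ, hσ⟩ := exists_twist (p := p) red H
  unfold Nw
  symm
  refine Nat.card_congr (Equiv.subtypeEquiv (galE σ H) fun χ => ?_)
  have hd : ∀ χ : H → ℂ, Pool.Agent.Q99.AS.Dft p 0 (galE σ H χ) ↔ Pool.Agent.Q99.AS.Dft p 0 χ := by
    intro χ
    unfold Pool.Agent.Q99.AS.Dft
    refine exists_congr fun n => and_congr_left fun _ => ?_
    change σ (χ 1) = n ↔ χ 1 = n
    constructor
    · intro h
      apply σ.injective
      rw [h, map_natCast]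
    · intro h
      rw [h, map_natCast]
  rw [isWt_bot, isWt_bot, irr_galE, hd]
  constructor
  · rintro ⟨⟨h1, h2⟩, h3⟩
    refine ⟨⟨h1, h2⟩, ?_⟩
    rw [← h3]
    exact hσ χ h1 f
  · rintro ⟨⟨h1, h2⟩, h3⟩
    refine ⟨⟨h1, h2⟩, ?_⟩
    have h4 : centralValue red χ f ^ p = c ^ p := (hσ χ h1 f).symm.trans h3
    exact frobenius_inj F p h4

theorem sKb_twist (z : H → F) (c : F) :
    sKb red p (fun x => z x ^ p) (c ^ p) = sKb red p z c := by
  unfold sKb
  congr 1
  funext K
  rw [knum_twist red (fun x : K => z x) c]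

end

end Pool.Agent.H297.WP
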