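import Pool.Agent.H297.WP.B4

/-!
# The blockwise alternating sums of `G ≀ C_p`
-/

set_option autoImplicit false

open scoped Classical

set_option linter.unusedSectionVars false

noncomputable section

namespace Pool.Agent.H297.WP

open Pool.Agent.R674.Ce (Cpl)
open Pool.Agent.Y63.KR (IsPChain chainStabilizer conjSub alternatingSum chainSetoid
  mem_chainStabilizer)
open Pool.Agent.Y63.NV
open Pool.Agent.Y63.AWC (IsIrreducibleCharacter)
open Pool.Agent.Helper884.IC (IsIrrChar)

section

variable {F : Type} [Field F] {p : ℕ} [hp : Fact p.Prime] {G : Type} [Group G]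

/-- the function `(f; t) ↦ ∏ z(f(t))` on the base group, extended by zero -/
def zw (z : G → F) : Wr p G → F := fun x => if x.right = 1 then ∏ t : Cy p, z (x.left t) else 0

lemma zw_base (z : G → F) (x : base p G) : zw z (x : Wr p G) = tpw z (baseEquiv p G x) := by
  unfold zw tpw
  rw [if_pos (mem_base.mp x.2)]
  rfl

lemma zw_zero (z : G → F) {x : Wr p G} (hx : x ∉ base p G) : zw z x = 0 :=
  if_neg fun h => hx (mem_base.mpr h)

lemma conj_left (g : Wr p G) {x : Wr p G} (hx : x ∈ base p G) (t : Cy p) :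
    (g * x * g⁻¹).left t = g.left t * x.left (g.right⁻¹ * t) * (g.left t)⁻¹ := by
  have hx1 := mem_base.mp hx
  rw [RegularWreathProduct.mul_left, RegularWreathProduct.mul_left,
    RegularWreathProduct.inv_left, RegularWreathProduct.mul_right, hx1]
  simp only [Pi.mul_apply, mul_one, Pi.inv_apply]
  rw [mul_inv_cancel_left]

lemma zw_inZ {z : G → F} (hz : IsClassFun z) : InZ (base p G) (zw z : Wr p G → F) := by
  refine ⟨fun g x => ?_, fun x hx => zw_zero z hx⟩
  by_cases hx : x ∈ base p G
  · have hx' : g * x * g⁻¹ ∈ base p G := Subgroup.Normal.conj_mem inferInstance x hx g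
    unfold zw
    rw [if_pos (mem_base.mp hx), if_pos (mem_base.mp hx')]
    refine Fintype.prod_equiv (Equiv.mulLeft g.right⁻¹) _ _ fun t => ?_
    rw [conj_left g hx, hz]
    rfl
  · have hx' : g * x * g⁻¹ ∉ base p G := by
      intro h
      apply hx
      have h1 : g⁻¹ * (g * x * g⁻¹) * g⁻¹⁻¹ ∈ base p G :=
        Subgroup.Normal.conj_mem inferInstance _ h g⁻¹
      have h2 : g⁻¹ * (g * x * g⁻¹) * g⁻¹⁻¹ = x := by group
      rwa [h2] at h1
    rw [zw_zero z hx, zw_zero z hx']

lemma finsum_base {f : Wr p G → F} (hf : ∀ y, y ∉ base p G → f y = 0) :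
    ∑ᶠ y : Wr p G, f y = ∑ᶠ y : base p G, f y := by
  have h0 : (∑ᶠ y : base p G, f y) = ∑ᶠ (y : Wr p G) (_ : y ∈ base p G), f y :=
    finsum_subtype_eq_finsum_cond (fun y => y ∈ base p G)
  rw [h0]
  refine finsum_congr fun y => ?_
  rw [finsum_eq_if]
  by_cases h : y ∈ base p G
  · rw [if_pos h]
  · rw [if_neg h, hf y h]

/-- the elements of the centraliser of an element of `T` -/
lemma exists_cent' {x : Wr p G} (hx : x ∈ T p G) :
    ∃ e : ↥(base p G ⊓ Subgroup.centralizer
      ((Subgroup.zpowers x : Subgroup (Wr p G)) : Set (Wr p G))) ≃* G,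
      ∀ z : G → F, IsClassFun z → ∀ m : ↥(base p G ⊓ Subgroup.centralizer
        ((Subgroup.zpowers x : Subgroup (Wr p G)) : Set (Wr p G))),
        zw z (m : Wr p G) = z (e m) ^ p := by
  obtain ⟨n, hn, h⟩ := exists_conj hx
  let ev : ↥(base p G ⊓ Subgroup.centralizer
      ((Subgroup.zpowers x : Subgroup (Wr p G)) : Set (Wr p G))) →* G :=
    { toFun := fun m => m.1.left 1
      map_one' := rfl
      map_mul' := fun a b => base_mul_left a.2.1 1 }
  have hcomm : ∀ m : Wr p G, m * x = x * m →
      (n⁻¹ * m * n) * RegularWreathProduct.inl (tau p) =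
        RegularWreathProduct.inl (tau p) * (n⁻¹ * m * n) := by
    intro m hm
    calc (n⁻¹ * m * n) * RegularWreathProduct.inl (tau p)
        = n⁻¹ * (m * (n * RegularWreathProduct.inl (tau p) * n⁻¹)) * n := by group
      _ = n⁻¹ * (x * m) * n := by rw [h, hm]
      _ = RegularWreathProduct.inl (tau p) * (n⁻¹ * m * n) := by rw [← h]; group
  have hbij : Function.Bijective ev := by
    constructor
    · rw [injective_iff_map_eq_one]
      intro m hm
      have h1 : m.1.left 1 = 1 := hm
      have h2 := mem_cent_zpowers.mp m.2.2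
      have h3 : n⁻¹ * m.1 * n ∈ base p G :=
        (base p G).mul_mem ((base p G).mul_mem ((base p G).inv_mem hn) m.2.1) hn
      have h4 := eq_cst h3 (hcomm m.1 h2)
      have h5 : (n⁻¹ * m.1 * n).left 1 = 1 := by
        rw [base_mul_left ((base p G).mul_mem ((base p G).inv_mem hn) m.2.1),
          base_mul_left ((base p G).inv_mem hn), h1, mul_one,
          ← base_mul_left ((base p G).inv_mem hn)]
        simp
      rw [h5] at h4
      apply Subtype.ext
      have h6 : m.1 = n * (n⁻¹ * m.1 * n) * n⁻¹ := by group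
      rw [h6, h4]
      have h8 : cst p (1 : G) = 1 := rfl
      rw [h8]
      simp
    · intro g
      refine ⟨⟨n * cst p ((n.left 1)⁻¹ * g * n.left 1) * n⁻¹, Subgroup.mem_inf.mpr ⟨
        (base p G).mul_mem ((base p G).mul_mem hn (cst_mem _)) ((base p G).inv_mem hn), ?_⟩⟩, ?_⟩
      · rw [mem_cent_zpowers, ← h]
        have := cst_comm (p := p) ((n.left 1)⁻¹ * g * n.left 1)
        calc n * cst p ((n.left 1)⁻¹ * g * n.left 1) * n⁻¹ *
              (n * RegularWreathProduct.inl (tau p) * n⁻¹)
            = n * (cst p ((n.left 1)⁻¹ * g * n.left 1) * RegularWreathProduct.inl (tau p)) *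
              n⁻¹ := by group
          _ = n * RegularWreathProduct.inl (tau p) * n⁻¹ *
              (n * cst p ((n.left 1)⁻¹ * g * n.left 1) * n⁻¹) := by rw [this]; group
      · change (n * cst p ((n.left 1)⁻¹ * g * n.left 1) * n⁻¹).left 1 = g
        rw [base_mul_left ((base p G).mul_mem hn (cst_mem _)), base_mul_left hn]
        have h9 : (n⁻¹).left 1 = (n.left 1)⁻¹ := by
          rw [RegularWreathProduct.inv_left, mem_base.mp hn]
          simp
        rw [h9]
        change n.left 1 * ((n.left 1)⁻¹ * g * n.left 1) * (n.left 1)⁻¹ = g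
        group
  refine ⟨MulEquiv.ofBijective ev hbij, fun z hz m => ?_⟩
  have h2 := mem_cent_zpowers.mp m.2.2
  have h3 : n⁻¹ * m.1 * n ∈ base p G :=
    (base p G).mul_mem ((base p G).mul_mem ((base p G).inv_mem hn) m.2.1) hn
  have h4 := eq_cst h3 (hcomm m.1 h2)
  have h5 : ∀ t : Cy p, (n⁻¹ * m.1 * n).left t = (n.left t)⁻¹ * m.1.left t * n.left t := by
    intro t
    rw [base_mul_left ((base p G).mul_mem ((base p G).inv_mem hn) m.2.1),
      base_mul_left ((base p G).inv_mem hn)]
    have h9 : (n⁻¹).left t = (n.left t)⁻¹ := by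
      rw [RegularWreathProduct.inv_left, mem_base.mp hn]
      simp
    rw [h9]
  have h6 : ∀ t : Cy p, z (m.1.left t) = z (m.1.left 1) := by
    intro t
    have e1 : (n⁻¹ * m.1 * n).left t = (n⁻¹ * m.1 * n).left 1 := by
      rw [h4]
      rfl
    rw [h5, h5] at e1
    have e2 : m.1.left t = (n.left t * (n.left 1)⁻¹) * m.1.left 1 *
        (n.left t * (n.left 1)⁻¹)⁻¹ := by
      calc m.1.left t = n.left t * ((n.left t)⁻¹ * m.1.left t * n.left t) * (n.left t)⁻¹ := by
            group
        _ = n.left t * ((n.left 1)⁻¹ * m.1.left 1 * n.left 1) * (n.left t)⁻¹ := by rw [e1]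
        _ = _ := by group
    rw [e2, hz]
  change (if m.1.right = 1 then ∏ t : Cy p, z (m.1.left t) else 0) = z (m.1.left 1) ^ p
  rw [if_pos (mem_base.mp m.2.1), Finset.prod_congr rfl fun t _ => h6 t, Finset.prod_const]
  congr 1
  rw [Finset.card_univ, ← Nat.card_eq_fintype_card]
  exact Nat.card_zmod p

variable [Finite G]

lemma zw_idem [IsAlgClosed F] [CharP F p] (red : integralClosure ℤ ℂ →+* F) {z : G → F}
    (hz : Idem z) : Idem (zw z : Wr p G → F) := by
  have h1 := zw_inZ (p := p) hz.cls
  refine ⟨h1.conj, ?_⟩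
  funext x
  unfold conv
  by_cases hx : x ∈ base p G
  · rw [finsum_base (fun y hy => by rw [zw_zero z hy, zero_mul])]
    have h2 := congrFun (pow_cy_b (p := p) red hz).1.sq (baseEquiv p G ⟨x, hx⟩)
    rw [zw_base z ⟨x, hx⟩, ← h2]
    unfold conv
    rw [← finsum_comp_equiv (baseEquiv p G).toEquiv]
    refine finsum_congr fun y => ?_
    rw [zw_base]
    have h3 : (y : Wr p G)⁻¹ * x = ((y⁻¹ * ⟨x, hx⟩ : base p G) : Wr p G) := rfl
    rw [h3, zw_base, map_mul, map_inv]
    rfl
  · rw [zw_zero z hx]
    refine finsum_eq_zero_of_forall_eq_zero fun y => ?_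
    by_cases hy : y ∈ base p G
    · have h2 : y⁻¹ * x ∉ base p G := by
        intro h
        apply hx
        have h3 := (base p G).mul_mem hy h
        rwa [mul_inv_cancel_left] at h3
      rw [zw_zero z h2, mul_zero]
    · rw [zw_zero z hy, zero_mul]

variable [IsAlgClosed F] [CharP F p] (red : integralClosure ℤ ℂ →+* F)

/-- a sum over the complements of the base group -/
lemma sum_cpl_b (h : ∀ (H : Type) [Group H], (H → F) → ℤ)
    {z : G → F} {c : ℤ}
    (hc : ∀ x ∈ T p G, h ↥(base p G ⊓ Subgroup.centralizer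
      ((Subgroup.zpowers x : Subgroup (Wr p G)) : Set (Wr p G)))
        (fun y => zw z (y : Wr p G)) = c) :
    (∑ᶠ R : Subgroup (Wr p G), if IsPGroup p R ∧ base p G ⊔ R = ⊤ ∧ base p G ⊓ R = ⊥ then
        h ↥(base p G ⊓ Subgroup.centralizer (R : Set (Wr p G)))
          (fun y => zw z (y : Wr p G)) else 0) =
    Nat.card (T p G) * c := by
  have : Fintype (Subgroup (Wr p G)) := Fintype.ofFinite _
  have : Fintype (Cpl p (base p G)) := Fintype.ofFinite _
  rw [finsum_eq_sum_of_fintype, ← Finset.sum_filter, ← card_cpl]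
  have h1 : ∀ R ∈ Finset.univ.filter (fun R : Subgroup (Wr p G) => IsPGroup p R ∧
      base p G ⊔ R = ⊤ ∧ base p G ⊓ R = ⊥),
      h ↥(base p G ⊓ Subgroup.centralizer (R : Set (Wr p G)))
        (fun y => zw z (y : Wr p G)) = c := by
    intro R hR
    obtain ⟨x, hx, rfl⟩ := zpowers_surj (Finset.mem_filter.mp hR).2
    exact hc x hx
  rw [Finset.sum_congr rfl h1, Finset.sum_const, nsmul_eq_mul]
  congr 1
  rw [Nat.card_eq_fintype_card, ← Fintype.card_subtype]
  norm_cast
  exact Fintype.card_congr (Equiv.refl _)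

lemma card_wr : (Nat.card (Wr p G) : ℤ) = (Nat.card (T p G) * Nat.card G) * p := by
  have h2 := card_T (p := p) (G := G)
  have h3 : (Nat.card (Wr p G)) = Nat.card (base p G) * p := by
    have := (base p G).card_mul_index
    rw [index_base] at this
    exact this.symm
  rw [h3, ← h2]
  push_cast
  ring

lemma card_TG : ((Nat.card (T p G) * Nat.card G : ℕ) : ℤ) ≠ 0 := by
  rw [card_T]
  exact_mod_cast Nat.card_pos.ne'

/-- **the alternating sums of `G ≀ C_p`** -/
theorem sKb_wr {z : G → F} (hz : Idem z) :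
    (p : ℤ) * sKb red p (zw z : Wr p G → F) 1 = sKb red p z 1 ^ p - sKb red p z 1 := by
  have h1 := ksm_formula red (G := base p G) index_base (zw_inZ hz.cls) 1
  have h2 : (fun x : base p G => zw z (x : Wr p G)) = fun x => tpw z (baseEquiv p G x) :=
    funext fun x => zw_base z x
  obtain ⟨i1, i2, i3⟩ := pow_cy_b (p := p) red hz
  have h3 := sum_cpl_b (p := p) (G := G) (F := F) (fun H _ f => KSm p red f 1) (z := z)
    (c := (Nat.card G : ℤ) * sKb red p z 1) (by
      intro x hx
      obtain ⟨e, he⟩ := exists_cent' (F := F) hx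
      have h4 : (fun y : ↥(base p G ⊓ Subgroup.centralizer
          ((Subgroup.zpowers x : Subgroup (Wr p G)) : Set (Wr p G))) => zw z (y : Wr p G)) =
          fun y => (fun g => z g ^ p) (e y) := funext fun y => he z hz.cls y
      have h5 : IsClassFun (fun g => z g ^ p) := fun g x => congrArg (· ^ p) (hz.cls g x)
      change KSm p red (fun y : ↥(base p G ⊓ Subgroup.centralizer
        ((Subgroup.zpowers x : Subgroup (Wr p G)) : Set (Wr p G))) => zw z (y : Wr p G)) 1 = _
      rw [h4, ksm_congr red e h5, ksm_eq_sKb red h5]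
      have h6 := sKb_twist (p := p) red z 1
      rw [one_pow] at h6
      rw [h6])
  rw [h3, h2, ksm_congr red (baseEquiv p G) i1.cls, ksm_eq_sKb red i1.cls, i2,
    ksm_eq_sKb red (zw_inZ hz.cls).conj, card_wr] at h1
  have h7 : (Nat.card (Cy p → G) : ℤ) = Nat.card (T p G) * Nat.card G := by
    rw [← Nat.card_congr (baseEquiv p G).toEquiv, ← card_T]
    push_cast
    rfl
  rw [h7] at h1
  have h8 := card_TG (p := p) (G := G)
  push_cast at h8
  apply mul_left_cancel₀ h8
  linear_combination h1

/-- **the characters of defect zero of `G ≀ C_p`** -/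
theorem nw_wr {z : G → F} (hz : Idem z) :
    (p : ℤ) * Nw p red (⊥ : Subgroup (Wr p G)) (zw z) 1 =
      (Nw p red (⊥ : Subgroup G) z 1 : ℤ) ^ p - Nw p red (⊥ : Subgroup G) z 1 := by
  have h1 := nsm_formula red (G := base p G) index_base (zw_inZ hz.cls) 1
  have h2 : (fun x : base p G => zw z (x : Wr p G)) = fun x => tpw z (baseEquiv p G x) :=
    funext fun x => zw_base z x
  obtain ⟨i1, i2, i3⟩ := pow_cy_b (p := p) red hz
  have h3 := sum_cpl_b (p := p) (G := G) (F := F) (fun H _ f => NSm p red f 1) (z := z)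
    (c := (Nat.card G : ℤ) * Nw p red (⊥ : Subgroup G) z 1) (by
      intro x hx
      obtain ⟨e, he⟩ := exists_cent' (F := F) hx
      have h4 : (fun y : ↥(base p G ⊓ Subgroup.centralizer
          ((Subgroup.zpowers x : Subgroup (Wr p G)) : Set (Wr p G))) => zw z (y : Wr p G)) =
          fun y => (fun g => z g ^ p) (e y) := funext fun y => he z hz.cls y
      have h5 : IsClassFun (fun g => z g ^ p) := fun g x => congrArg (· ^ p) (hz.cls g x)
      change NSm p red (fun y : ↥(base p G ⊓ Subgroup.centralizer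
        ((Subgroup.zpowers x : Subgroup (Wr p G)) : Set (Wr p G))) => zw z (y : Wr p G)) 1 = _
      unfold NSm
      rw [h4, nw_bot_congr red e h5, Nat.card_congr e.toEquiv]
      have h6 := nw_twist (p := p) red z 1
      rw [one_pow] at h6
      rw [h6])
  rw [h3, h2] at h1
  unfold NSm at h1
  rw [nw_bot_congr red (baseEquiv p G) i1.cls, i3, card_wr, ← card_T] at h1
  have h8 := card_TG (p := p) (G := G)
  push_cast at h8 h1
  apply mul_left_cancel₀ h8
  linear_combination h1

end

end Pool.Agent.H297.WP
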