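import Pool.Agent.H297.WP.B3

/-!
# Block idempotents
-/

set_option autoImplicit false

open scoped Classical

set_option linter.unusedSectionVars false

noncomputable section

namespace Pool.Agent.H297.WP

open Pool.Agent.Y63.NV

section cen

variable {F : Type} [Field F] {G : Type} [Group G] [Finite G]

/-- the element of the group algebra of a function -/
def toA (f : G → F) : MonoidAlgebra F G := MonoidAlgebra.ofCoeff (Finsupp.equivFunOnFinite.symm f)

@[simp] lemma toA_coeff (f : G → F) (g : G) : (toA f).coeff g = f g := rfl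

lemma toA_ext {x y : MonoidAlgebra F G} (h : ∀ g, x.coeff g = y.coeff g) : x = y :=
  MonoidAlgebra.coeff_injective (Finsupp.ext h)

lemma mul_coeff (x y : MonoidAlgebra F G) (g : G) :
    (x * y).coeff g = conv (fun a => x.coeff a) (fun a => y.coeff a) g := by
  have : Fintype G := Fintype.ofFinite G
  rw [MonoidAlgebra.coeff_mul_apply_left]
  unfold conv
  rw [finsum_eq_sum_of_fintype, Finsupp.sum_fintype _ _ (fun i => by rw [zero_mul])]

lemma mem_cen {x : MonoidAlgebra F G} : x ∈ Subalgebra.center F (MonoidAlgebra F G) ↔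
    IsClassFun (fun g => x.coeff g) := by
  rw [Subalgebra.mem_center_iff]
  constructor
  · intro h g x'
    have h1 := h (MonoidAlgebra.single g 1)
    have h2 := congrArg (fun t => t.coeff (g * x')) h1
    simp only [MonoidAlgebra.coeff_single_mul_apply, MonoidAlgebra.coeff_mul_single_apply] at h2
    rw [one_mul, mul_one, inv_mul_cancel_left] at h2
    exact h2.symm
  · intro h b
    apply toA_ext
    intro g
    rw [mul_coeff, mul_coeff]
    have : Fintype G := Fintype.ofFinite G
    unfold conv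
    let e : G ≃ G := ⟨fun y => y⁻¹ * g, fun y => g * y⁻¹, fun y => by group, fun y => by group⟩
    rw [← finsum_comp_equiv e]
    refine finsum_congr fun y => ?_
    change b.coeff (y⁻¹ * g) * x.coeff ((y⁻¹ * g)⁻¹ * g) = x.coeff y * b.coeff (y⁻¹ * g)
    rw [mul_comm]
    congr 1
    have h1 := h g⁻¹ y
    have e1 : g⁻¹ * y * g⁻¹⁻¹ = (y⁻¹ * g)⁻¹ * g := by group
    rw [e1] at h1
    exact h1

variable (F G) in
/-- the centre of the group algebra -/
abbrev Cen : Type := ↥(Subalgebra.center F (MonoidAlgebra F G))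

/-- class functions as elements of the centre -/
def toC (f : G → F) (hf : IsClassFun f) : Cen F G := ⟨toA f, mem_cen.mpr hf⟩

/-- elements of the centre as functions -/
def ofC (x : Cen F G) : G → F := fun g => x.1.coeff g

lemma ofC_cls (x : Cen F G) : IsClassFun (ofC x) := mem_cen.mp x.2

lemma ofC_toC (f : G → F) (hf : IsClassFun f) : ofC (toC f hf) = f := rfl

lemma cen_ext {x y : Cen F G} (h : ofC x = ofC y) : x = y :=
  Subtype.ext (toA_ext fun g => congrFun h g)

lemma toC_ofC (x : Cen F G) : toC (ofC x) (ofC_cls x) = x := cen_ext rfl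

lemma ofC_mul (x y : Cen F G) : ofC (x * y) = conv (ofC x) (ofC y) := by
  funext g
  exact mul_coeff x.1 y.1 g

lemma ofC_add (x y : Cen F G) : ofC (x + y) = ofC x + ofC y := rfl

lemma ofC_smul (a : F) (x : Cen F G) : ofC (a • x) = a • ofC x := rfl

lemma ofC_one : ofC (1 : Cen F G) = Pi.single 1 1 := by
  funext g
  change (1 : MonoidAlgebra F G).coeff g = _
  rw [MonoidAlgebra.one_def, MonoidAlgebra.coeff_single, Finsupp.single_apply, Pi.single_apply]
  simp only [eq_comm]

/-- a block as a homomorphism of algebras -/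
def blkHom {B : (G → F) → F} (hB : IsBlock B) : Cen F G →ₐ[F] F :=
  AlgHom.ofLinearMap
    { toFun := fun x => B (ofC x)
      map_add' := fun x y => by
        rw [ofC_add]
        exact hB.add _ _ (ofC_cls x) (ofC_cls y)
      map_smul' := fun a x => by
        rw [ofC_smul]
        exact hB.smul a _ (ofC_cls x) }
    (by
      change B (ofC 1) = 1
      rw [ofC_one]
      exact hB.one)
    (fun x y => by
      change B (ofC (x * y)) = B (ofC x) * B (ofC y)
      rw [ofC_mul]
      exact hB.mul _ _ (ofC_cls x) (ofC_cls y))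

lemma blkHom_apply {B : (G → F) → F} (hB : IsBlock B) (x : Cen F G) : blkHom hB x = B (ofC x) :=
  rfl

lemma blkHom_toC {B : (G → F) → F} (hB : IsBlock B) {f : G → F} (hf : IsClassFun f) :
    blkHom hB (toC f hf) = B f := rfl

/-- a homomorphism of algebras as a block -/
lemma exists_blk (φ : Cen F G →ₐ[F] F) : ∃ B : (G → F) → F, IsBlock B ∧
    ∀ (f : G → F) (hf : IsClassFun f), B f = φ (toC f hf) := by
  refine ⟨fun f => if h : IsClassFun f then φ (toC f h) else 0, ⟨?_, ?_, ?_, ?_⟩, fun f hf => ?_⟩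
  · intro f g hf hg
    have h1 : IsClassFun (f + g) := fun a x => by rw [Pi.add_apply, Pi.add_apply, hf, hg]
    beta_reduce
    rw [dif_pos h1, dif_pos hf, dif_pos hg, ← map_add]
    exact congrArg φ (cen_ext rfl)
  · intro a f hf
    have h1 : IsClassFun (a • f) := fun b x => by rw [Pi.smul_apply, Pi.smul_apply, hf]
    beta_reduce
    rw [dif_pos h1, dif_pos hf, ← smul_eq_mul, ← map_smul]
    exact congrArg φ (cen_ext rfl)
  · have h1 : IsClassFun (Pi.single (1 : G) (1 : F) : G → F) := Pool.Agent.R674.KB.isClassFun_one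
    beta_reduce
    rw [dif_pos h1]
    have h2 : toC (Pi.single (1 : G) (1 : F) : G → F) h1 = 1 := by
      apply cen_ext
      rw [ofC_toC, ofC_one]
    rw [h2, map_one]
  · intro f g hf hg
    have hfin : Fintype G := Fintype.ofFinite G
    have h1 : IsClassFun (conv f g) := Pool.Agent.Y705.NV.conv_classFun hf hg
    beta_reduce
    rw [dif_pos h1, dif_pos hf, dif_pos hg, ← map_mul]
    congr 1
    apply cen_ext
    rw [ofC_mul, ofC_toC, ofC_toC, ofC_toC]
  · exact dif_pos hf

end cen

section abs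

variable {F : Type} [Field F] {R : Type} [CommRing R] [Algebra F R] [Module.Finite F R]

/-- an element separating a homomorphism from the others -/
lemma exists_sep_alg (φ₀ : R →ₐ[F] F) : ∃ w : R, IsNilpotent (w * w - w) ∧ φ₀ w = 1 ∧
    ∀ φ : R →ₐ[F] F, RingHom.ker φ ≠ RingHom.ker φ₀ → φ w = 0 := by
  have hart : IsArtinianRing R := IsArtinianRing.of_finite F R
  have hker : ∀ φ : R →ₐ[F] F, (RingHom.ker φ).IsMaximal := fun φ =>
    RingHom.ker_isMaximal_of_surjective φ (fun c => ⟨algebraMap F R c, by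
      rw [AlgHom.commutes]; rfl⟩)
  let I₀ : MaximalSpectrum R := ⟨RingHom.ker φ₀, hker _⟩
  obtain ⟨y, hy⟩ := (IsArtinianRing.quotNilradicalEquivPi R).surjective (Pi.single I₀ 1)
  obtain ⟨w, rfl⟩ := Ideal.Quotient.mk_surjective y
  have hw : ∀ I : MaximalSpectrum R,
      Ideal.Quotient.mk I.asIdeal w = (Pi.single I₀ 1 : ∀ I : MaximalSpectrum R,
        R ⧸ I.asIdeal) I := fun I => congrFun hy I
  refine ⟨w, ?_, ?_, ?_⟩
  · have h1 : Ideal.Quotient.mk (nilradical R) (w * w - w) = 0 := by
      apply (IsArtinianRing.quotNilradicalEquivPi R).injective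
      rw [map_zero, map_sub, map_mul, map_sub, map_mul, hy, ← Pi.single_mul, one_mul, sub_self]
    rw [Ideal.Quotient.eq_zero_iff_mem, mem_nilradical] at h1
    exact h1
  · have h1 := hw I₀
    rw [Pi.single_eq_same, ← map_one (Ideal.Quotient.mk I₀.asIdeal), Ideal.Quotient.eq] at h1
    have h2 : φ₀ (w - 1) = 0 := h1
    rwa [map_sub, map_one, sub_eq_zero] at h2
  · intro φ h
    have h1 := hw ⟨RingHom.ker φ, hker φ⟩
    rw [Pi.single_eq_of_ne (by
      intro h2
      exact h (congrArg MaximalSpectrum.asIdeal h2)), Ideal.Quotient.eq_zero_iff_mem] at h1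
    exact h1

/-- the idempotent of a homomorphism -/
lemma exists_idem_alg (p : ℕ) [Fact p.Prime] [CharP R p] (φ₀ : R →ₐ[F] F) :
    ∃ e : R, e * e = e ∧ φ₀ e = 1 ∧ ∀ φ : R →ₐ[F] F, φ e = 1 → φ = φ₀ := by
  obtain ⟨w, ⟨n, hn⟩, h1, h2⟩ := exists_sep_alg φ₀
  have hle : n ≤ p ^ n := (Nat.lt_pow_self (Fact.out : p.Prime).one_lt).le
  have h3 : (w * w - w) ^ (p ^ n) = 0 := pow_eq_zero_of_le hle hn
  rw [sub_pow_char_pow, mul_pow, sub_eq_zero] at h3
  refine ⟨w ^ (p ^ n), h3, by rw [map_pow, h1, one_pow], fun φ hφ => ?_⟩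
  rw [map_pow] at hφ
  have h4 : RingHom.ker φ = RingHom.ker φ₀ := by
    by_contra h
    rw [h2 φ h, zero_pow (pow_ne_zero _ (Fact.out : p.Prime).ne_zero)] at hφ
    exact zero_ne_one hφ
  ext x
  have h5 : x - algebraMap F R (φ x) ∈ RingHom.ker φ := by
    rw [RingHom.mem_ker, map_sub, AlgHom.commutes]
    exact sub_self _
  rw [h4] at h5
  rw [RingHom.mem_ker, map_sub, AlgHom.commutes, sub_eq_zero] at h5
  exact h5.symm

end abs

section sep

variable {p : ℕ} [Fact p.Prime] {F : Type} [Field F] [IsAlgClosed F] [CharP F p]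
  {G : Type} [Group G] [Finite G]

lemma idem_toC {x : Cen F G} (hx : x * x = x) : Idem (ofC x) where
  cls := ofC_cls x
  sq := by rw [← ofC_mul, hx]

include p in
/-- a block is the only block which does not vanish at its idempotent -/
theorem exists_idem_sep {B₀ : (G → F) → F} (hB₀ : IsBlock B₀) :
    ∃ e : G → F, Idem e ∧ B₀ e = 1 ∧ ∀ B : (G → F) → F, IsBlock B → B e = 1 →
      ∀ f : G → F, IsClassFun f → B f = B₀ f := by
  have : CharP (Cen F G) p := charP_of_injective_algebraMap
    (algebraMap F (Cen F G)).injective p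
  obtain ⟨e, h1, h2, h3⟩ := exists_idem_alg p (blkHom hB₀)
  refine ⟨ofC e, idem_toC h1, h2, fun B hB hBe f hf => ?_⟩
  have h4 := h3 (blkHom hB) hBe
  have h5 := congrArg (fun φ => φ (toC f hf)) h4
  exact h5

end sep

end Pool.Agent.H297.WP
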