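import Pool.Agent.H297.WP.Tower
import Pool.Agent.Y63.KR.Limit
import Pool.Agent.Q90.WR.Krq

/-!
# The Knörr-Robinson conjecture is decided by congruences modulo `p`
-/

set_option autoImplicit false

open scoped Classical

set_option linter.unusedSectionVars false

noncomputable section

namespace Pool.Agent.H297.WP

open Pool.Agent.R674.Ce
open Pool.Agent.Y63.KR (KRC alternatingSum altSum_classes numHom eulerChar fixedPoset chi2 zsum
  numHom_zsum zsum_mod numDefectZero_eq_card zsum0 cod)
open Pool.Agent.Y63.AWC (numDefectZero numDefectZero_congr)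
open Pool.Agent.Helper884.IC

section

variable {p : ℕ} [hp : Fact p.Prime]

lemma del_diff (G : Type) [Group G] [Finite G] : (del p G : ℚ) = krDiff p G := by
  have h0 : (Nat.card G : ℚ) ≠ 0 := by exact_mod_cast Nat.card_pos.ne'
  apply mul_left_cancel₀ h0
  rw [krDiff_eq, defK_eq]
  push_cast
  rfl

theorem pow_dvd_iff : ∀ (n : ℕ) (G : GrpCat.{0}) [Finite G],
    (p : ℤ) ^ n ∣ del p G ↔ ∀ j < n, (p : ℤ) ∣ del p (It p j G) := by
  have hp0 : (p : ℤ) ≠ 0 := by exact_mod_cast hp.out.ne_zero
  intro n
  induction n with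
  | zero =>
    intro G _
    simp
  | succ n ih =>
    intro G _
    have hs : ∀ j, It p (j + 1) G = It p j (GrpCat.of (Wr p G)) := fun j =>
      Function.iterate_succ_apply _ _ _
    have hw : Finite (GrpCat.of (Wr p G)) := inferInstanceAs (Finite (Wr p G))
    have ihW := ih (GrpCat.of (Wr p G))
    have hd := del_wr (p := p) (G := G)
    constructor
    · intro h j hj
      rcases j with _ | j
      · exact (dvd_pow_self _ (by omega)).trans h
      · rw [hs]
        refine ihW.mp ?_ j (by omega)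
        have h1 : (p : ℤ) ^ (n + 1) ∣ p * del p (Wr p G) := by
          rw [hd]
          refine dvd_sub (h.trans ?_) h
          exact sub_dvd_pow_sub_pow _ _ _
        rw [pow_succ'] at h1
        exact (mul_dvd_mul_iff_left hp0).mp h1
    · intro h
      rcases n with _ | n
      · rw [zero_add, pow_one]
        exact h 0 (by omega)
      · refine step (by omega) hd ((ih G).mpr fun j hj => h j (by omega)) (ihW.mpr ?_)
        intro j hj
        rw [← hs]
        exact h (j + 1) (by omega)

lemma eq_zero_of_pow {d : ℤ} (h : ∀ n : ℕ, (p : ℤ) ^ n ∣ d) : d = 0 := by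
  by_contra h0
  have h1 := Int.le_of_dvd (abs_pos.mpr h0) ((dvd_abs _ _).mpr (h d.natAbs))
  have h2 : d.natAbs < p ^ d.natAbs := Nat.lt_pow_self hp.out.one_lt
  have h3 : ((d.natAbs : ℕ) : ℤ) < ((p ^ d.natAbs : ℕ) : ℤ) := by exact_mod_cast h2
  rw [Int.natCast_natAbs] at h3
  push_cast at h3
  linarith

/-- **one group** -/
theorem krc_tower (G : GrpCat.{0}) [Finite G] :
    KRC p G ↔ ∀ j, (p : ℤ) ∣ del p (It p j G) := by
  rw [krc_iff]
  constructor
  · intro h j
    exact (pow_dvd_iff (j + 1) G).mp (by rw [h]; exact dvd_zero _) j (by omega)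
  · intro h
    exact eq_zero_of_pow fun n => (pow_dvd_iff n G).mpr fun j _ => h j

/-- **classes of groups** -/
theorem krc_class (X : GrpCat.{0} → Prop) (hX : ∀ G : GrpCat.{0}, Finite G → X G →
      X (GrpCat.of (Wr p G))) :
    (∀ G : GrpCat.{0}, Finite G → X G → KRC p G) ↔
      ∀ G : GrpCat.{0}, Finite G → X G → (p : ℤ) ∣ del p G := by
  constructor
  · intro h G _ hG
    rw [(krc_iff (p := p) G).mp (h G inferInstance hG)]
    exact dvd_zero _
  · intro h G _ hG
    have h1 : ∀ j : ℕ, ∀ K : GrpCat.{0}, Finite K → X K → Finite (It p j K) ∧ X (It p j K) := by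
      intro j
      induction j with
      | zero => exact fun K h1 h2 => ⟨h1, h2⟩
      | succ j ih =>
        intro K h1 h2
        have hs : It p (j + 1) K = It p j (GrpCat.of (Wr p K)) := Function.iterate_succ_apply _ _ _
        rw [hs]
        exact ih _ (inferInstanceAs (Finite (Wr p K))) (hX K h1 h2)
    rw [krc_tower]
    intro j
    obtain ⟨h2, h3⟩ := h1 j G inferInstance hG
    exact h _ h2 h3

/-! ### numbers of homomorphisms from surface groups -/

lemma zsum_mod' {G : Type} [Group G] [Fintype G] {n : ℕ} (hn0 : n ≠ 0) (hn : p - 1 ∣ 2 * n) :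
    zsum n G ≡ numDefectZero p G [MOD p] := by
  have h1 : zsum n G ≡ zsum0 p n G [MOD p] :=
    (zsum_mod (p := p) (G := G) n).of_dvd (dvd_pow_self p (by omega))
  refine h1.trans ?_
  rw [numDefectZero_eq_card]
  unfold zsum0
  rw [Finset.card_eq_sum_ones]
  apply Nat.ModEq.sum
  intro chi hchi
  have h2 := (Finset.mem_filter.mp hchi).2
  obtain ⟨c, hc⟩ := hn
  have h3 : Nat.Coprime (cod chi) p := (Nat.Prime.coprime_iff_not_dvd hp.out).mpr h2 |>.symm
  have h4 := Nat.ModEq.pow_totient h3
  rw [Nat.totient_prime hp.out] at h4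
  rw [hc, pow_mul]
  have h5 := h4.pow c
  rw [one_pow] at h5
  exact h5

/-- the number of commuting pairs, minus the sum of the Euler characteristics -/
def comEuler (p : ℕ) (G : Type) [Group G] : ℤ :=
  (Nat.card {q : G × G // q.1 * q.2 = q.2 * q.1} : ℤ) -
    ∑ᶠ q : {q : G × G // q.1 * q.2 = q.2 * q.1}, eulerChar (fixedPoset p ({q.1.1, q.1.2} : Set G))

lemma comEuler_eq (G : Type) [Group G] [Finite G] :
    comEuler p G = (Nat.card G : ℤ) * sK p G := by
  have h0 : (Nat.card G : ℚ) ≠ 0 := by exact_mod_cast Nat.card_pos.ne'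
  have : Fintype {q : G × G // q.1 * q.2 = q.2 * q.1} := Fintype.ofFinite _
  have h1 := altSum_classes (p := p) (G := G)
  have h2 := card_comm_eq_card_conjClasses_mul_card G
  have h3 : Nat.card {q : G × G // q.1 * q.2 = q.2 * q.1} = Nat.card (ConjClasses G) * Nat.card G := by
    rw [← h2]
    exact Nat.card_congr (Equiv.subtypeEquivRight fun q => Iff.rfl)
  have h4 : (comEuler p G : ℚ) = (Nat.card G : ℚ) * (sK p G : ℚ) := by
    unfold comEuler sK
    rw [h1, h3, finsum_eq_sum_of_fintype]
    unfold chi2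
    rw [finsum_eq_sum_of_fintype]
    push_cast
    field_simp
  exact_mod_cast h4

theorem hom_iff {n : ℕ} (hn0 : n ≠ 0) (hn : p - 1 ∣ 2 * n) (G : Type) [Group G] [Finite G] :
    (p : ℤ) ∣ del p G ↔ (p * Nat.card G : ℤ) ∣ comEuler p G - numHom (n + 1) G := by
  have := Fintype.ofFinite G
  have h0 : (Nat.card G : ℤ) ≠ 0 := by exact_mod_cast Nat.card_pos.ne'
  rw [comEuler_eq, numHom_zsum]
  push_cast
  rw [← mul_sub, mul_comm (p : ℤ), mul_dvd_mul_iff_left h0]
  have h1 : (zsum n G : ℤ) ≡ numDefectZero p G [ZMOD p] :=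
    Int.natCast_modEq_iff.mpr (zsum_mod' hn0 hn)
  have h2 : (p : ℤ) ∣ numDefectZero p G - zsum n G := Int.modEq_iff_dvd.mp h1
  unfold del
  constructor
  · intro h3
    have h4 := dvd_add h3 h2
    have h5 : sK p G - (numDefectZero p G : ℤ) + (numDefectZero p G - zsum n G) =
      sK p G - zsum n G := by ring
    rwa [h5] at h4
  · intro h3
    have h4 := dvd_sub h3 h2
    have h5 : sK p G - (zsum n G : ℤ) - (numDefectZero p G - zsum n G) =
      sK p G - numDefectZero p G := by ring
    rwa [h5] at h4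

end

/-! ### the prime `2` -/

open Pool.Agent.Q90.WR (realChainClasses numRealDefectZero parity_iff)

theorem real_iff (G : Type) [Group G] [Finite G] :
    (2 : ℤ) ∣ del 2 G ↔ realChainClasses 2 G ≡ numRealDefectZero 2 G [MOD 2] :=
  (parity_iff 2 G).symm

end Pool.Agent.H297.WP
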