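import Pool.Agent.H297.WP.B5
import Pool.Agent.H297.WP.B6
import Pool.Agent.R674.KB.Main
import Pool.Agent.H297.WP.Krm

/-!
# The blockwise Knörr-Robinson conjecture is decided by congruences modulo `p`
-/

set_option autoImplicit false

open scoped Classical

set_option linter.unusedSectionVars false

noncomputable section

namespace Pool.Agent.H297.WP

open Pool.Agent.Y63.KR (IsPChain chainStabilizer conjSub alternatingSum chainSetoid
  alternatingSum_sub)
open Pool.Agent.Y63.NV
open Pool.Agent.Y63.AWC (IsIrreducibleCharacter)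
open Pool.Agent.Y171.NV (CFm mu mud card_I card_D card_K card_W card_fib irr_fin wt_fin)

section

variable {p : ℕ} [hp : Fact p.Prime] {F : Type} [Field F] [IsAlgClosed F] [CharP F p]
  (red : integralClosure ℤ ℂ →+* F)

/-- the difference of the two sides of the blockwise Knörr-Robinson conjecture for `B` -/
def dB (p : ℕ) {F : Type} [Field F] (red : integralClosure ℤ ℂ →+* F) {G : Type} [Group G]
    (B : (G → F) → F) : ℤ :=
  alternatingSum p G (fun H => (numIrrInd red H B : ℤ)) - numDzBlock p red B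

/-- the difference of the two sides for a function -/
def dZ (p : ℕ) {F : Type} [Field F] (red : integralClosure ℤ ℂ →+* F) {G : Type} [Group G]
    (z : G → F) (c : F) : ℤ :=
  sKb red p z c - Nw p red (⊥ : Subgroup G) z c

/-- **the difference for a class function as a sum over blocks** -/
theorem dZ_eq_sum {G : Type} [Group G] [Finite G] : ∃ (ι : Type) (_ : Fintype ι)
    (B : ι → ((G → F) → F)), (∀ i, IsBlock (B i)) ∧ ∀ (z : G → F), IsClassFun z → ∀ c : F,
      dZ p red z c = ∑ i, if B i z = c then dB p red (B i) else 0 := by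
  have hΩ : Fintype {σ : Set (Subgroup G) // IsPChain p σ} := Fintype.ofFinite _
  have hQ : Fintype (Quotient (chainSetoid p G)) := Fintype.ofFinite _
  have hX : ∀ H : Subgroup G, Finite {χ : H → ℂ // IsIrreducibleCharacter χ} := fun H => irr_fin H
  have hY : Finite {χ : G → ℂ // IsWt p (⊥ : Subgroup G) χ} := wt_fin p G
  have hfX : ∀ H : Subgroup G, Fintype {χ : H → ℂ // IsIrreducibleCharacter χ} :=
    fun H => Fintype.ofFinite _
  have hfY : Fintype {χ : G → ℂ // IsWt p (⊥ : Subgroup G) χ} := Fintype.ofFinite _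
  let rX : ∀ H : Subgroup G, {χ : H → ℂ // IsIrreducibleCharacter χ} → (CFm G F → F) :=
    fun H χ => fun f => mu red H χ.1 f
  let rY : {χ : G → ℂ // IsWt p (⊥ : Subgroup G) χ} → (CFm G F → F) :=
    fun χ => fun f => mud red χ.1 f
  let S : Finset (CFm G F → F) :=
    (Finset.univ : Finset {σ : Set (Subgroup G) // IsPChain p σ}).biUnion
      (fun σ => Finset.univ.image (rX (chainStabilizer σ.1))) ∪ Finset.univ.image rY
  have hSX : ∀ (σ : {σ : Set (Subgroup G) // IsPChain p σ}) χ,
      rX (chainStabilizer σ.1) χ ∈ S := fun σ χ =>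
    Finset.mem_union_left _ (Finset.mem_biUnion.2 ⟨σ, Finset.mem_univ _,
      Finset.mem_image_of_mem _ (Finset.mem_univ _)⟩)
  have hSY : ∀ χ, rY χ ∈ S := fun χ =>
    Finset.mem_union_right _ (Finset.mem_image_of_mem _ (Finset.mem_univ _))
  have hblk : ∀ β : S, ∃ B : (G → F) → F, IsBlock B ∧ ∀ f : CFm G F, B f.1 = β.1 f := by
    rintro ⟨β, hβ⟩
    rcases Finset.mem_union.1 hβ with h | h
    · obtain ⟨σ, -, h⟩ := Finset.mem_biUnion.1 h
      obtain ⟨χ, -, rfl⟩ := Finset.mem_image.1 h
      exact ⟨_, Pool.Agent.R674.KB.kblk p F red G σ.1 χ.1 σ.2 χ.2, fun f => rfl⟩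
    · obtain ⟨χ, -, rfl⟩ := Finset.mem_image.1 h
      exact ⟨_, Pool.Agent.Y930.NV.cvh F red G χ.1 χ.2.irr, fun f => rfl⟩
  choose B hB1 hB2 using hblk
  refine ⟨S, inferInstance, B, hB1, fun z hz c => ?_⟩
  have h1 : ∀ β : S, B β z = β.1 ⟨z, hz⟩ := fun β => hB2 β ⟨z, hz⟩
  -- the characters of the stabilisers
  have e1 : ∀ H : Subgroup G, (∀ χ, rX H χ ∈ S) →
      (Knum red (fun x : H => z x) c : ℤ) =
        ∑ β : S, if β.1 ⟨z, hz⟩ = c then (numIrrInd red H (B β) : ℤ) else 0 := by
    intro H hH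
    have e3 := card_K red H ⟨z, hz⟩ c
    have e4 := card_fib (rX H) S hH (fun β => β ⟨z, hz⟩ = c)
    have e5 : Knum red (fun x : H => z x) c =
        ∑ β ∈ S, if β ⟨z, hz⟩ = c then Nat.card {χ // rX H χ = β} else 0 := e3.trans e4
    rw [e5, ← Finset.sum_coe_sort]
    push_cast
    refine Finset.sum_congr rfl fun β _ => ?_
    rw [← card_I red H (B β) β.1 (hB2 β)]
  have e2 : (Nw p red (⊥ : Subgroup G) z c : ℤ) =
      ∑ β : S, if β.1 ⟨z, hz⟩ = c then (numDzBlock p red (B β) : ℤ) else 0 := by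
    have e6 : Nw p red (⊥ : Subgroup G) z c =
        ∑ β ∈ S, if β ⟨z, hz⟩ = c then Nat.card {χ // rY χ = β} else 0 :=
      (card_W p red ⟨z, hz⟩ c).trans (card_fib rY S hSY (fun β => β ⟨z, hz⟩ = c))
    rw [e6, ← Finset.sum_coe_sort]
    push_cast
    refine Finset.sum_congr rfl fun β _ => ?_
    rw [← card_D p red (B β) β.1 (hB2 β)]
  have e7 : sKb red p z c = ∑ β : S, if β.1 ⟨z, hz⟩ = c then
      alternatingSum p G (fun H => (numIrrInd red H (B β) : ℤ)) else 0 := by
    have e8 : ∀ d : Quotient (chainSetoid p G), ((-1) ^ d.out.1.ncard *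
        (Knum red (fun x : chainStabilizer d.out.1 => z x) c : ℤ) : ℤ) =
        ∑ β : S, if β.1 ⟨z, hz⟩ = c then (-1) ^ d.out.1.ncard *
          (numIrrInd red (chainStabilizer d.out.1) (B β) : ℤ) else 0 := by
      intro d
      rw [e1 (chainStabilizer d.out.1) (hSX d.out), Finset.mul_sum]
      refine Finset.sum_congr rfl fun β _ => ?_
      rw [mul_ite, mul_zero]
    have e9 : sKb red p z c = ∑ d : Quotient (chainSetoid p G), ((-1) ^ d.out.1.ncard *
        (Knum red (fun x : chainStabilizer d.out.1 => z x) c : ℤ) : ℤ) :=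
      finsum_eq_sum_of_fintype _
    rw [e9, Finset.sum_congr rfl fun d _ => e8 d, Finset.sum_comm]
    refine Finset.sum_congr rfl fun β _ => ?_
    by_cases h : β.1 ⟨z, hz⟩ = c
    · simp only [if_pos h]
      exact (finsum_eq_sum_of_fintype _).symm
    · simp only [if_neg h, Finset.sum_const_zero]
  unfold dZ
  rw [e7, e2, ← Finset.sum_sub_distrib]
  refine Finset.sum_congr rfl fun β _ => ?_
  rw [h1 β]
  by_cases h : β.1 ⟨z, hz⟩ = c
  · rw [if_pos h, if_pos h, if_pos h]
    rfl
  · rw [if_neg h, if_neg h, if_neg h, sub_zero]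

/-- congruences for the blocks imply congruences for class functions -/
theorem dvd_dZ {G : Type} [Group G] [Finite G] {m : ℤ}
    (h : ∀ B : (G → F) → F, IsBlock B → m ∣ dB p red B) {z : G → F} (hz : IsClassFun z) (c : F) :
    m ∣ dZ p red z c := by
  obtain ⟨ι, _, B, h1, h2⟩ := dZ_eq_sum (p := p) red (G := G)
  rw [h2 z hz c]
  refine Finset.dvd_sum fun i _ => ?_
  split_ifs
  · exact h _ (h1 i)
  · exact dvd_zero _

/-- the block idempotent computes the difference of a block -/
theorem exists_dB {G : Type} [Group G] [Finite G] {B₀ : (G → F) → F} (hB₀ : IsBlock B₀) :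
    ∃ e : G → F, Idem e ∧ B₀ e = 1 ∧ (∀ B : (G → F) → F, IsBlock B → B e = 1 →
      ∀ f : G → F, IsClassFun f → B f = B₀ f) ∧ dB p red B₀ = dZ p red e 1 := by
  obtain ⟨e, h1, h2, h3⟩ := exists_idem_sep (p := p) hB₀
  refine ⟨e, h1, h2, h3, ?_⟩
  unfold dB dZ sKb alternatingSum
  have e1 : ∀ σ : Set (Subgroup G), IsPChain p σ → numIrrInd red (chainStabilizer σ) B₀ =
      Knum red (fun x : chainStabilizer σ => e x) 1 := by
    intro σ hσ
    unfold numIrrInd Knum
    refine Nat.card_congr (Equiv.subtypeEquivRight fun χ => ?_)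
    constructor
    · rintro ⟨h4, h5⟩
      exact ⟨h4, by rw [h5 e h1.cls, h2]⟩
    · rintro ⟨h4, h5⟩
      exact ⟨h4, h3 _ (Pool.Agent.R674.KB.kblk p F red G σ χ hσ h4) h5⟩
  have e2 : numDzBlock p red B₀ = Nw p red (⊥ : Subgroup G) e 1 := by
    unfold numDzBlock Nw
    refine Nat.card_congr (Equiv.subtypeEquivRight fun χ => ?_)
    constructor
    · rintro ⟨h4, h5⟩
      exact ⟨h4, by rw [h5 e h1.cls, h2]⟩
    · rintro ⟨h4, h5⟩
      exact ⟨h4, h3 _ (Pool.Agent.Y930.NV.cvh F red G χ h4.irr) h5⟩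
  rw [e2]
  congr 1
  refine finsum_congr fun d => ?_
  beta_reduce
  rw [e1 d.out.1 d.out.2]

/-! ### The tower -/

lemma dZ_wr {G : Type} [Group G] [Finite G] {z : G → F} (hz : Idem z) :
    (p : ℤ) * dZ p red (zw z : Wr p G → F) 1 =
      sKb red p z 1 ^ p - (Nw p red (⊥ : Subgroup G) z 1 : ℤ) ^ p -
        (sKb red p z 1 - Nw p red (⊥ : Subgroup G) z 1) := by
  unfold dZ
  rw [mul_sub, sKb_wr red hz, nw_wr red hz]
  ring

/-- **divisibility by powers of `p`**, for a class of pairs closed under wreath products -/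
theorem pow_dvd_dZ (X : ∀ (G : Type) [Group G], (G → F) → Prop)
    (hX : ∀ (G : Type) [Group G] [Finite G] (z : G → F), X G z → X (Wr p G) (zw z))
    (h : ∀ (G : Type) [Group G] [Finite G] (z : G → F), Idem z → X G z → (p : ℤ) ∣ dZ p red z 1) :
    ∀ (n : ℕ) (G : Type) [Group G] [Finite G] (z : G → F), Idem z → X G z →
      (p : ℤ) ^ n ∣ dZ p red z 1 := by
  intro n
  induction n with
  | zero =>
    intro G _ _ z _ _
    rw [pow_zero]
    exact one_dvd _
  | succ n ih =>
    intro G _ _ z hz hG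
    rcases n with _ | n
    · rw [zero_add, pow_one]
      exact h G z hz hG
    · exact step (by omega) (dZ_wr red hz) (ih G z hz hG)
        (ih (Wr p G) (zw z) (zw_idem red hz) (hX G z hG))

theorem dZ_eq_zero (X : ∀ (G : Type) [Group G], (G → F) → Prop)
    (hX : ∀ (G : Type) [Group G] [Finite G] (z : G → F), X G z → X (Wr p G) (zw z))
    (h : ∀ (G : Type) [Group G] [Finite G] (z : G → F), Idem z → X G z → (p : ℤ) ∣ dZ p red z 1)
    (G : Type) [Group G] [Finite G] (z : G → F) (hz : Idem z) (hG : X G z) :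
      dZ p red z 1 = 0 :=
  eq_zero_of_pow fun n => pow_dvd_dZ red X hX h n G z hz hG

lemma krb_iff {G : Type} [Group G] : KRB p red G ↔ ∀ B : (G → F) → F, IsBlock B →
    dB p red B = 0 := by
  unfold KRB dB
  simp only [sub_eq_zero]

/-- **The blockwise alternating sum conjecture is decided by congruences modulo `p`.** -/
theorem krb_class (X : ∀ (G : Type) [Group G], Prop)
    (hX : ∀ (G : Type) [Group G] [Finite G], X G → X (Wr p G)) :
    (∀ (G : Type) [Group G] [Finite G], X G → KRB p red G) ↔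
      ∀ (G : Type) [Group G] [Finite G], X G → ∀ B : (G → F) → F, IsBlock B →
        (p : ℤ) ∣ dB p red B := by
  constructor
  · intro h G _ _ hG B hB
    rw [(krb_iff red).1 (h G hG) B hB]
    exact dvd_zero _
  · intro h G _ _ hG
    rw [krb_iff]
    intro B hB
    obtain ⟨e, h1, -, -, h4⟩ := exists_dB (p := p) red hB
    rw [h4]
    exact dZ_eq_zero red (fun G _ _ => X G) (fun G _ _ _ hG => hX G hG)
      (fun G _ _ z hz hG => dvd_dZ red (h G hG) hz.cls 1) G e h1 hG

end

end Pool.Agent.H297.WP
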