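import Pool.Agent.Y63.NV.Base48

/-!
# From the blockwise congruence to the single element congruence

This file is `Pool/Agent/Y63/NV/Base48.lean` (helper48) with the equality replaced by a congruence.
-/

set_option autoImplicit false

open scoped Classical

noncomputable section

namespace Pool.Agent.H297.WP

open Pool.Agent.Y63.AWC (IsIrreducibleCharacter pSubgroupSetoid)
open Pool.Agent.Y63.NV
open Pool.Agent.Y63.NV.B48B

/-- the two sides for all blocks agree modulo `m` -/
def BMod (p : ℕ) {F : Type} [Field F] (red : integralClosure ℤ ℂ →+* F) (G : Type) [Group G]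
    (m : ℤ) : Prop :=
  ∀ B : ((⊤ : Subgroup G) → F) → F, IsBlock B →
    m ∣ (numIBr (⊤ : Subgroup G) B : ℤ) - ((∑ᶠ c : Quotient (pSubgroupSetoid p G),
      if (⊤ : Subgroup G) ⊔ c.out.1 = ⊤ then numDz p red (⊤ : Subgroup G) c.out.1 B else 0 : ℕ) : ℤ)

theorem base_mod (h0 : S_IRR) (h1 : S_SCHUR) (h2 : S_WBLK) (p : ℕ) [hp : Fact p.Prime]
    (F : Type) [Field F] [IsAlgClosed F] [CharP F p] (red : integralClosure ℤ ℂ →+* F)
    (G : Type) [Group G] [Finite G] (m : ℤ) (hNav : BMod p red G m) (z : G → F)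
    (hz : IsClassFun z) (c : F) :
    (Nat.card G : ℤ) * m ∣ Lsum (⊤ : Subgroup G) ⊤ z c - Wsum p red (⊤ : Subgroup G) ⊤ z c := by
  have : Fintype G := Fintype.ofFinite G
  -- the irreducible traces
  let X : Type := {φ : (⊤ : Subgroup G) → F // IsIrrTrace φ ∧ IsInvUnder ⊤ φ}
  have hX : Finite X := ((h0 F (⊤ : Subgroup G)).1.subset (fun φ h => h.1)).to_subtype
  have hBX : ∀ φ : X, (∃ x, φ.1 x ≠ 0) ∧ ∃ B : ((⊤ : Subgroup G) → F) → F, IsBlock B ∧
      ∀ f : (⊤ : Subgroup G) → F, IsClassFun f → ∀ x, ∑ᶠ g, f g * φ.1 (g * x) = B f * φ.1 x :=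
    fun φ => h1 F (⊤ : Subgroup G) φ.1 φ.2.1
  choose hne BX hBX1 hBX2 using hBX
  -- the weights
  let P : Type := {Q : Subgroup G // IsPGroup p Q}
  have hP : Finite P := inferInstanceAs (Finite {Q : Subgroup G // IsPGroup p Q})
  have : Fintype P := Fintype.ofFinite P
  let Y : P → Type := fun Q => {χ : Subgroup.normalizer (Q.1 : Set G) → ℂ //
    IsWt p (Q.1.subgroupOf (Subgroup.normalizer (Q.1 : Set G))) χ}
  have hY : ∀ Q, Finite (Y Q) := fun Q =>
    ((h0 ℂ (Subgroup.normalizer (Q.1 : Set G))).1.subset (fun χ h => h.irr)).to_subtype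
  let BY : ∀ Q : P, Y Q → ((⊤ : Subgroup G) → F) → F := fun Q χ f =>
    centralValue red χ.1 (fun x => sh f x)
  have hBY : ∀ Q χ, IsBlock (BY Q χ) := fun Q χ =>
    block_top (h2 p F red G Q.1 χ.1 Q.2 χ.2)
  have hfX : Fintype X := Fintype.ofFinite X
  have hfY : ∀ Q, Fintype (Y Q) := fun Q => Fintype.ofFinite (Y Q)
  let rX : X → (CF (⊤ : Subgroup G) F → F) := fun φ => rs (BX φ)
  let rY : ∀ Q, Y Q → (CF (⊤ : Subgroup G) F → F) := fun Q χ => rs (BY Q χ)
  let S : Finset (CF (⊤ : Subgroup G) F → F) := Finset.univ.image rX ∪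
    (Finset.univ : Finset P).biUnion (fun Q => Finset.univ.image (rY Q))
  have hSX : ∀ φ, rX φ ∈ S := fun φ =>
    Finset.mem_union_left _ (Finset.mem_image_of_mem _ (Finset.mem_univ _))
  have hSY : ∀ Q χ, rY Q χ ∈ S := fun Q χ =>
    Finset.mem_union_right _ (Finset.mem_biUnion.2 ⟨Q, Finset.mem_univ _,
      Finset.mem_image_of_mem _ (Finset.mem_univ _)⟩)
  have hS : ∀ β ∈ S, ∃ B : ((⊤ : Subgroup G) → F) → F, IsBlock B ∧ rs B = β := by
    intro β hβ
    rcases Finset.mem_union.1 hβ with h | h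
    · obtain ⟨φ, -, rfl⟩ := Finset.mem_image.1 h
      exact ⟨BX φ, hBX1 φ, rfl⟩
    · obtain ⟨Q, -, h⟩ := Finset.mem_biUnion.1 h
      obtain ⟨χ, -, rfl⟩ := Finset.mem_image.1 h
      exact ⟨BY Q χ, hBY Q χ, rfl⟩
  -- Navarro's equality for a block
  have key : ∀ β ∈ S, m ∣ (Nat.card {φ : X // rX φ = β} : ℤ) -
      ((∑ᶠ d : Quotient (pSubgroupSetoid p G), Nat.card {χ : Y d.out // rY d.out χ = β} : ℕ) :
        ℤ) := by
    intro β hβ
    obtain ⟨B, hB, rfl⟩ := hS β hβ
    have h3 := hNav B hB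
    have e1 : numIBr (⊤ : Subgroup G) B = Nat.card {φ : X // rX φ = rs B} := by
      unfold numIBr
      refine Nat.card_congr
        { toFun := fun φ => ⟨⟨φ.1, φ.2.1, φ.2.2.1⟩, ?_⟩
          invFun := fun φ => ⟨φ.1.1, φ.1.2.1, φ.1.2.2, ?_⟩
          left_inv := fun φ => rfl
          right_inv := fun φ => rfl }
      · funext f
        obtain ⟨x, hx⟩ := hne ⟨φ.1, φ.2.1, φ.2.2.1⟩
        have h4 := hBX2 ⟨φ.1, φ.2.1, φ.2.2.1⟩ f.1 f.2 x
        have h5 := φ.2.2.2 f.1 f.2 x
        exact mul_right_cancel₀ hx (h4.symm.trans h5)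
      · intro f hf x
        have h4 := hBX2 φ.1 f hf x
        have h5 : BX φ.1 f = B f := congrFun φ.2 ⟨f, hf⟩
        rw [← h5]
        exact h4
    have e2 : ∀ Q : P, numDz p red (⊤ : Subgroup G) Q.1 B = Nat.card {χ : Y Q // rY Q χ = rs B} := by
      intro Q
      unfold numDz
      refine Nat.card_congr
        { toFun := fun χ => ⟨⟨χ.1, χ.2.1⟩, ?_⟩
          invFun := fun χ => ⟨χ.1.1, χ.1.2, ?_⟩
          left_inv := fun χ => rfl
          right_inv := fun χ => rfl }
      · funext f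
        exact χ.2.2 (sh f.1) (sh_inZ f.2)
      · intro w hw
        exact congrFun χ.2 ⟨fun x : (⊤ : Subgroup G) => w x, un_class hw.conj⟩
    rw [← e1]
    convert h3 using 3
    refine finsum_congr fun d => ?_
    rw [if_pos (top_sup_eq _), e2 d.out]
  -- the sums
  let zC : CF (⊤ : Subgroup G) F := ⟨fun x : (⊤ : Subgroup G) => z x, un_class hz⟩
  have hfQ : Fintype (Quotient (pSubgroupSetoid p G)) := Fintype.ofFinite _
  have e3 : Lnum (⊤ : Subgroup G) ⊤ z c = Nat.card {φ : X // rX φ zC = c} := by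
    unfold Lnum
    refine Nat.card_congr
      { toFun := fun φ => ⟨⟨φ.1, φ.2.1, φ.2.2.1⟩, ?_⟩
        invFun := fun φ => ⟨φ.1.1, φ.1.2.1, φ.1.2.2, ?_⟩
        left_inv := fun φ => rfl
        right_inv := fun φ => rfl }
    · obtain ⟨x, hx⟩ := hne ⟨φ.1, φ.2.1, φ.2.2.1⟩
      have h4 := hBX2 ⟨φ.1, φ.2.1, φ.2.2.1⟩ zC.1 zC.2 x
      have h5 := φ.2.2.2 x
      exact mul_right_cancel₀ hx (h4.symm.trans h5)
    · intro x
      have h4 := hBX2 φ.1 zC.1 zC.2 x
      have h5 : BX φ.1 zC.1 = c := φ.2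
      exact h4.trans (congrArg (fun t => t * φ.1.1 x) h5)
  have e4 : ∀ Q : P, Nw p red (Q.1.subgroupOf (Subgroup.normalizer (Q.1 : Set G)))
      (fun x => z x) c = Nat.card {χ : Y Q // rY Q χ zC = c} := by
    intro Q
    unfold Nw
    exact Nat.card_congr
      { toFun := fun χ => ⟨⟨χ.1, χ.2.1⟩, χ.2.2⟩
        invFun := fun χ => ⟨χ.1.1, χ.1.2, χ.2⟩
        left_inv := fun χ => rfl
        right_inv := fun χ => rfl }
  have e5 : m ∣ (Lnum (⊤ : Subgroup G) ⊤ z c : ℤ) - ((∑ᶠ d : Quotient (pSubgroupSetoid p G),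
      Nw p red (d.out.1.subgroupOf (Subgroup.normalizer (d.out.1 : Set G))) (fun x => z x) c :
        ℕ) : ℤ) := by
    rw [e3, card_fib rX S hSX (fun β => β zC = c), finsum_eq_sum_of_fintype]
    have e6 : ∀ d : Quotient (pSubgroupSetoid p G),
        Nw p red (d.out.1.subgroupOf (Subgroup.normalizer (d.out.1 : Set G))) (fun x => z x) c =
        ∑ β ∈ S, if β zC = c then Nat.card {χ : Y d.out // rY d.out χ = β} else 0 := by
      intro d
      rw [e4 d.out]
      exact card_fib (rY d.out) S (hSY d.out) (fun β => β zC = c)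
    rw [Finset.sum_congr rfl fun d _ => e6 d, Finset.sum_comm, Nat.cast_sum, Nat.cast_sum,
      ← Finset.sum_sub_distrib]
    refine Finset.dvd_sum fun β hβ => ?_
    by_cases h : β zC = c
    · simp only [if_pos h]
      have := key β hβ
      rwa [finsum_eq_sum_of_fintype] at this
    · simp only [if_neg h]
      rw [Finset.sum_const_zero, Nat.cast_zero, sub_zero]
      exact dvd_zero _
  -- the action by conjugation
  let _act : MulAction G P :=
    { smul := fun g Q => ⟨Q.1.map (MulAut.conj g).toMonoidHom, Q.2.map _⟩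
      one_smul := fun Q => by
        apply Subtype.ext
        change Q.1.map (MulAut.conj (1 : G)).toMonoidHom = Q.1
        ext x
        simp [Subgroup.mem_map]
      mul_smul := fun g h Q => by
        apply Subtype.ext
        change Q.1.map (MulAut.conj (g * h)).toMonoidHom =
          (Q.1.map (MulAut.conj h).toMonoidHom).map (MulAut.conj g).toMonoidHom
        rw [Subgroup.map_map]
        congr 1
        ext x
        simp [mul_assoc] }
  have hsm : ∀ (g : G) (Q : P), (g • Q).1 = Q.1.map (MulAut.conj g).toMonoidHom := fun _ _ => rfl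
  have h6 := orbit_sum (G := G) (Ω := P) (pSubgroupSetoid p G) (by
    intro Q R
    change (∃ g : G, R.1 = Q.1.map (MulAut.conj g).toMonoidHom) ↔ _
    constructor
    · rintro ⟨g, hg⟩
      exact ⟨g, Subtype.ext (by rw [hsm, hg])⟩
    · rintro ⟨g, hg⟩
      exact ⟨g, by rw [← hg, hsm]⟩)
    (fun Q => Nw p red (Q.1.subgroupOf (Subgroup.normalizer (Q.1 : Set G))) (fun x => z x) c) (by
      rintro Q R ⟨g, hg⟩
      change Nw p red (Q.1.subgroupOf (Subgroup.normalizer (Q.1 : Set G))) (fun x => z x) c =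
        Nw p red (R.1.subgroupOf (Subgroup.normalizer (R.1 : Set G))) (fun x => z x) c
      rw [hg]
      exact nw_conj p red hz c g Q.1)
  have hstab : ∀ Q : P, Nat.card (MulAction.stabilizer G Q) =
      Nat.card (Subgroup.normalizer (Q.1 : Set G)) := by
    intro Q
    refine Nat.card_congr (Equiv.subtypeEquivRight fun g => ?_)
    rw [MulAction.mem_stabilizer_iff, Subtype.ext_iff, hsm, Subgroup.mem_normalizer_iff]
    constructor
    · intro h3 x
      constructor
      · intro hx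
        have : g * x * g⁻¹ ∈ Q.1.map (MulAut.conj g).toMonoidHom := ⟨x, hx, rfl⟩
        rw [h3] at this
        exact this
      · intro hx
        have hx' : g * x * g⁻¹ ∈ Q.1 := hx
        rw [← h3] at hx'
        obtain ⟨y, hy, hyx⟩ := hx'
        have : g * y * g⁻¹ = g * x * g⁻¹ := hyx
        have : y = x := by simpa using this
        rwa [← this]
    · intro h3
      ext x
      constructor
      · rintro ⟨y, hy, rfl⟩
        exact (h3 y).mp hy
      · intro hx
        refine ⟨g⁻¹ * x * g, (h3 _).mpr ?_, ?_⟩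
        · have : g * (g⁻¹ * x * g) * g⁻¹ = x := by group
          rw [this]
          exact hx
        · change g * (g⁻¹ * x * g) * g⁻¹ = x
          group
  -- conclusion
  have h7 : Nat.card G * ∑ᶠ d : Quotient (pSubgroupSetoid p G),
      Nw p red (d.out.1.subgroupOf (Subgroup.normalizer (d.out.1 : Set G))) (fun x => z x) c =
      ∑ Q : P, Nat.card (Subgroup.normalizer (Q.1 : Set G)) *
        Nw p red (Q.1.subgroupOf (Subgroup.normalizer (Q.1 : Set G))) (fun x => z x) c := by
    rw [h6]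
    exact Finset.sum_congr rfl fun Q _ => by rw [hstab Q]
  have e8 : Lsum (⊤ : Subgroup G) ⊤ z c = ((Nat.card G * Lnum (⊤ : Subgroup G) ⊤ z c : ℕ) : ℤ) := by
    unfold Lsum
    rw [if_pos (sup_idem _), inf_idem, Subgroup.card_top]
    push_cast
    rfl
  have e9 : Wsum p red (⊤ : Subgroup G) ⊤ z c = ((∑ Q : P,
      Nat.card (Subgroup.normalizer (Q.1 : Set G)) *
        Nw p red (Q.1.subgroupOf (Subgroup.normalizer (Q.1 : Set G))) (fun x => z x) c : ℕ) : ℤ) := by
    unfold Wsum
    have : Fintype (Subgroup G) := Fintype.ofFinite _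
    rw [finsum_eq_sum_of_fintype]
    have e10 : ∀ Q : Subgroup G, (if IsPGroup p Q ∧ Q ≤ ⊤ ∧ (⊤ : Subgroup G) ⊔ Q = ⊤ then
        (Nat.card ↥((⊤ : Subgroup G) ⊓ Subgroup.normalizer (Q : Set G)) : ℤ) *
          Nw p red (Q.subgroupOf ((⊤ : Subgroup G) ⊓ Subgroup.normalizer (Q : Set G)))
            (fun x => z x) c else 0) =
        if IsPGroup p Q then (Nat.card ↥(Subgroup.normalizer (Q : Set G)) : ℤ) *
          Nw p red (Q.subgroupOf (Subgroup.normalizer (Q : Set G))) (fun x => z x) c else 0 := by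
      intro Q
      rw [top_inf_eq]
      by_cases h : IsPGroup p Q
      · rw [if_pos h, if_pos ⟨h, le_top, top_sup_eq _⟩]
      · rw [if_neg h, if_neg fun h' => h h'.1]
    rw [Finset.sum_congr rfl fun Q _ => e10 Q, ← Finset.sum_filter]
    push_cast
    exact Finset.sum_subtype (p := fun Q : Subgroup G => IsPGroup p Q)
      (Finset.univ.filter fun Q : Subgroup G => IsPGroup p Q) (by simp)
      (fun Q => (Nat.card ↥(Subgroup.normalizer (Q : Set G)) : ℤ) *
          Nw p red (Q.subgroupOf (Subgroup.normalizer (Q : Set G))) (fun x => z x) c)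
  rw [e8, e9, ← h7, Nat.cast_mul, Nat.cast_mul, ← mul_sub]
  exact mul_dvd_mul_left _ e5

end Pool.Agent.H297.WP
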