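import Pool.Agent.H297.WP.B7
import Pool.Agent.H297.WP.B8

/-!
# The blockwise weight conjecture is decided by congruences modulo `p`
-/

set_option autoImplicit false

open scoped Classical

set_option linter.unusedSectionVars false

noncomputable section

namespace Pool.Agent.H297.WP

open Pool.Agent.Y63.KR (IsPChain chainStabilizer conjSub alternatingSum chainSetoid
  alternatingSum_sub mem_chainStabilizer)
open Pool.Agent.Y63.NV
open Pool.Agent.Y63.AWC (IsIrreducibleCharacter pSubgroupSetoid)
open Pool.Agent.Y171.NV (card_mul_alt)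
open Pool.Agent.R674.KB (kdimh kfilt kfin')

section

variable {p : ℕ} [hp : Fact p.Prime] {F : Type} [Field F] [IsAlgClosed F] [CharP F p]
  (red : integralClosure ℤ ℂ →+* F)

lemma wsum_iso {A B : Type} [Group A] [Group B] (e : A ≃* B) {z : B → F} (hz : IsClassFun z)
    (c : F) : Wsum p red (⊤ : Subgroup A) ⊤ (fun a => z (e a)) c =
      Wsum p red (⊤ : Subgroup B) ⊤ z c := by
  unfold Wsum
  have hback : ∀ P : Subgroup B, (P.comap e.toMonoidHom).map e.toMonoidHom = P := fun P =>
    Subgroup.map_comap_eq_self_of_surjective e.surjective P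
  refine finsum_eq_of_bijective (fun Q : Subgroup A => Q.map e.toMonoidHom)
    ⟨Subgroup.map_injective e.injective, fun P => ⟨P.comap e.toMonoidHom, hback P⟩⟩ fun Q => ?_
  have h1 : IsPGroup p Q ↔ IsPGroup p (Q.map e.toMonoidHom) := by
    constructor
    · intro h
      exact h.map _
    · intro h
      have h2 := h.comap_of_injective e.toMonoidHom e.injective
      rwa [Subgroup.comap_map_eq_self_of_injective e.injective] at h2
  by_cases hQ : IsPGroup p Q
  · rw [if_pos ⟨hQ, le_top, top_sup_eq _⟩, if_pos ⟨h1.1 hQ, le_top, top_sup_eq _⟩]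
    have hn : ∀ x : A, x ∈ (⊤ : Subgroup A) ⊓ Subgroup.normalizer (Q : Set A) ↔
        e x ∈ (⊤ : Subgroup B) ⊓ Subgroup.normalizer ((Q.map e.toMonoidHom : Subgroup B) :
          Set B) := by
      intro x
      rw [top_inf_eq, top_inf_eq, Subgroup.mem_normalizer_iff, Subgroup.mem_normalizer_iff]
      have hm : ∀ y : A, e y ∈ Q.map e.toMonoidHom ↔ y ∈ Q := by
        intro y
        constructor
        · rintro ⟨w, hw, h⟩
          rwa [← e.injective h]
        · intro h
          exact ⟨y, h, rfl⟩
      constructor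
      · intro h b
        obtain ⟨a, rfl⟩ := e.surjective b
        rw [← map_mul, ← map_inv, ← map_mul, hm, hm]
        exact h a
      · intro h a
        have h2 := h (e a)
        rwa [← map_mul, ← map_inv, ← map_mul, hm, hm] at h2
    let e' : ↥((⊤ : Subgroup A) ⊓ Subgroup.normalizer (Q : Set A)) ≃*
        ↥((⊤ : Subgroup B) ⊓ Subgroup.normalizer ((Q.map e.toMonoidHom : Subgroup B) : Set B)) :=
      { toFun := fun x => ⟨e x, (hn x).1 x.2⟩
        invFun := fun y => ⟨e.symm y, (hn _).2 (by rw [e.apply_symm_apply]; exact y.2)⟩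
        left_inv := fun x => Subtype.ext (e.symm_apply_apply _)
        right_inv := fun y => Subtype.ext (e.apply_symm_apply _)
        map_mul' := fun x y => Subtype.ext (map_mul e _ _) }
    rw [Nat.card_congr e'.toEquiv]
    congr 2
    have hsub : ∀ x, e' x ∈ (Q.map e.toMonoidHom).subgroupOf
        ((⊤ : Subgroup B) ⊓ Subgroup.normalizer ((Q.map e.toMonoidHom : Subgroup B) : Set B)) ↔
        x ∈ Q.subgroupOf ((⊤ : Subgroup A) ⊓ Subgroup.normalizer (Q : Set A)) := by
      intro x
      rw [Subgroup.mem_subgroupOf, Subgroup.mem_subgroupOf]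
      constructor
      · rintro ⟨w, hw, h⟩
        have h3 : w = (x : A) := e.injective h
        rwa [← h3]
      · intro h
        exact ⟨x, h, rfl⟩
    have hcl : IsClassFun (fun y : ↥((⊤ : Subgroup B) ⊓
        Subgroup.normalizer ((Q.map e.toMonoidHom : Subgroup B) : Set B)) => z y) :=
      fun g x => hz (g : B) (x : B)
    exact Pool.Agent.Y624.NV.nw_congr p red e' hsub (fun _ => rfl) hcl c
  · rw [if_neg fun h => hQ h.1, if_neg fun h => hQ (h1.2 h.1)]

/-- the difference of the two sides for a subgroup, divided by its order -/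
def uD (p : ℕ) {F : Type} [Field F] (red : integralClosure ℤ ℂ →+* F) {G : Type} [Group G]
    (z : G → F) (c : F) (H : Subgroup G) : ℤ :=
  (Lsum (⊤ : Subgroup H) ⊤ (fun x : H => z x) c -
    Wsum p red (⊤ : Subgroup H) ⊤ (fun x : H => z x) c) / (Nat.card H : ℤ)

lemma uD_inv {G : Type} [Group G] [Finite G] {z : G → F} (hz : IsClassFun z) (c : F) (g : G)
    (H : Subgroup G) : uD p red z c (conjSub g H) = uD p red z c H := by
  let e : H ≃* conjSub g H := (MulAut.conj g).subgroupMap H
  have he : ∀ x : H, ((e x : conjSub g H) : G) = g * x * g⁻¹ := fun x => rfl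
  have h1 : (fun x : H => z x) = fun x : H => (fun y : conjSub g H => z y) (e x) := by
    funext x
    change z x = z (e x : conjSub g H)
    rw [he, hz]
  have h2 : IsClassFun (fun y : conjSub g H => z y) := fun a x => hz a x
  unfold uD
  rw [h1, lsum_iso e (fun y : conjSub g H => z y) c, wsum_iso red e h2 c,
    Nat.card_congr e.toEquiv]

/-- the alternating sum of the differences -/
lemma dZ_eq {G : Type} [Group G] [Finite G] {z : G → F} (hz : IsClassFun z) (c : F)
    (hd : ∀ σ : Set (Subgroup G), IsPChain p σ → (Nat.card (chainStabilizer σ) : ℤ) ∣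
      Lsum (⊤ : Subgroup (chainStabilizer σ)) ⊤ (fun x => z x) c -
        Wsum p red (⊤ : Subgroup (chainStabilizer σ)) ⊤ (fun x => z x) c) :
    dZ p red z c = alternatingSum p G (uD p red z c) := by
  have h0 : (Nat.card G : ℤ) ≠ 0 := by exact_mod_cast Nat.card_pos.ne'
  apply mul_left_cancel₀ h0
  rw [card_mul_alt _ (uD_inv red hz c)]
  have h1 := ksum_sub (Γ := G) kdimh kfilt red hz c
  have h2 : (Nat.card G : ℤ) * dZ p red z c = KSm p red z c -
      (Nat.card G : ℤ) * Nw p red (⊥ : Subgroup G) z c := by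
    unfold dZ
    rw [mul_sub, ← ksm_eq_sKb red hz]
  rw [h2]
  unfold KSm
  rw [h1]
  refine finsum_congr fun σ => ?_
  congr 1
  have e1 : (fun x : chainStabilizer σ.1 => cut z (chainStabilizer σ.1) x) =
      fun x : chainStabilizer σ.1 => z x := by
    funext x
    unfold cut
    rw [if_pos x.2]
  rw [parts.trl F G ⊤ (chainStabilizer σ.1) (cut z (chainStabilizer σ.1)) c (top_sup_eq _),
    Pool.Agent.Y624.NV.trn p F red G ⊤ (chainStabilizer σ.1) z c (top_sup_eq _)
      (fun h _ x => hz h x), Subgroup.top_subgroupOf, e1]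
  unfold uD
  rw [Int.mul_ediv_cancel' (hd σ.1 σ.2)]

/-- congruences for the stabilisers of chains imply the congruence for the alternating sum -/
theorem dvd_dZ_of_bmod {G : Type} [Group G] [Finite G] {m : ℤ}
    (h : ∀ σ : Set (Subgroup G), IsPChain p σ → BMod p red (chainStabilizer σ) m)
    {z : G → F} (hz : IsClassFun z) (c : F) : m ∣ dZ p red z c := by
  have h1 : ∀ σ : Set (Subgroup G), IsPChain p σ → (Nat.card (chainStabilizer σ) : ℤ) * m ∣
      Lsum (⊤ : Subgroup (chainStabilizer σ)) ⊤ (fun x => z x) c -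
        Wsum p red (⊤ : Subgroup (chainStabilizer σ)) ⊤ (fun x => z x) c := fun σ hσ =>
    base_mod Pool.Agent.Y914.NV.irr schur' wblk' p F red (chainStabilizer σ) m (h σ hσ) _
      (fun g x => hz g x) c
  rw [dZ_eq red hz c fun σ hσ => (dvd_mul_right _ _).trans (h1 σ hσ)]
  have : Fintype (Quotient (chainSetoid p G)) := Fintype.ofFinite _
  unfold alternatingSum
  rw [finsum_eq_sum_of_fintype]
  refine Finset.dvd_sum fun d _ => Dvd.dvd.mul_left ?_ _
  unfold uD
  have h2 := h1 d.out.1 d.out.2
  have h3 : (Nat.card (chainStabilizer d.out.1) : ℤ) ≠ 0 := by exact_mod_cast Nat.card_pos.ne'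
  obtain ⟨t, ht⟩ := h2
  rw [ht, mul_assoc, Int.mul_ediv_cancel_left _ h3]
  exact dvd_mul_right _ _

end

end Pool.Agent.H297.WP
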