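import Pool.Agent.H297.WP.Wr
import Pool.Agent.Q99.AS.Dade

/-!
# The two sides of the Knörr-Robinson conjecture for direct products
-/

set_option autoImplicit false

open scoped Classical

set_option linter.unusedSectionVars false

noncomputable section

namespace Pool.Agent.H297.WP

open Pool.Agent.R674.Ce
open Pool.Agent.Y63.KR (IsPChain chainStabilizer conjSub alternatingSum chainSetoid)
open Pool.Agent.Y63.AWC (numDefectZero)
open Pool.Agent.Q99.AS (IsCh chSetoid altSum altSum_prod ConjInv card_prod ten Dft Dft_ten')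
open Pool.Agent.Helper884.IC (IsIrrChar)

section alt

variable {G : Type} [Group G]

/-- the sum over the classes of an equivalence relation, evaluated at representatives -/
def gen (P : Set (Subgroup G) → Prop) (s : Setoid {σ : Set (Subgroup G) // P σ})
    (f : Subgroup G → ℤ) : ℤ :=
  ∑ᶠ c : Quotient s, (-1) ^ c.out.1.ncard * f (chainStabilizer c.out.1)

lemma gen_eq {P P' : Set (Subgroup G) → Prop} (h : P = P')
    (s : Setoid {σ : Set (Subgroup G) // P σ}) (s' : Setoid {σ : Set (Subgroup G) // P' σ})
    (hs : ∀ (a b : Set (Subgroup G)) (ha : P a) (hb : P b),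
      s.r ⟨a, ha⟩ ⟨b, hb⟩ ↔ s'.r ⟨a, h ▸ ha⟩ ⟨b, h ▸ hb⟩) (f : Subgroup G → ℤ) :
    gen P s f = gen P' s' f := by
  subst h
  have : s = s' := Setoid.ext fun a b => hs a.1 b.1 a.2 b.2
  rw [this]

lemma isCh_bot (p : ℕ) : (IsCh p (⊥ : Subgroup G)) = IsPChain p := by
  funext σ
  apply propext
  constructor
  · rintro ⟨h1, h2, h3⟩
    exact ⟨h1, h2, fun P hP => (h3 P hP).ne'⟩
  · rintro ⟨h1, h2, h3⟩
    exact ⟨h1, h2, fun P hP => bot_lt_iff_ne_bot.mpr (h3 P hP)⟩

lemma altSum_bot (p : ℕ) (f : Subgroup G → ℤ) :
    altSum p (⊥ : Subgroup G) f = alternatingSum p G f :=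
  gen_eq (isCh_bot p) (chSetoid p ⊥) (chainSetoid p G) (fun _ _ _ _ => Iff.rfl) f

end alt

section prod

variable {p : ℕ} [Fact p.Prime] {G H : Type} [Group G] [Group H] [Finite G] [Finite H]

lemma cc_prod (G H : Type) [Group G] [Group H] :
    Nat.card (ConjClasses (G × H)) = Nat.card (ConjClasses G) * Nat.card (ConjClasses H) := by
  rw [← Nat.card_prod]
  have hi : ∀ {a b : G} {c d : H}, IsConj (a, c) (b, d) ↔ IsConj a b ∧ IsConj c d :=
    Pool.Agent.Q99.AS.isConj_prod
  refine Nat.card_congr
    { toFun := fun c => Quotient.liftOn c (fun x => (ConjClasses.mk x.1, ConjClasses.mk x.2))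
        (fun x y h => by
          have h' : IsConj x y := h
          obtain ⟨h1, h2⟩ := hi.mp h'
          exact Prod.ext (ConjClasses.mk_eq_mk_iff_isConj.mpr h1)
            (ConjClasses.mk_eq_mk_iff_isConj.mpr h2))
      invFun := fun q => Quotient.liftOn₂ q.1 q.2 (fun a b => ConjClasses.mk (a, b))
        (fun a b c d h1 h2 => ConjClasses.mk_eq_mk_iff_isConj.mpr (hi.mpr ⟨h1, h2⟩))
      left_inv := fun c => by
        induction c using Quotient.inductionOn with
        | _ x => rfl
      right_inv := fun q => by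
        obtain ⟨a, b⟩ := q
        induction a using Quotient.inductionOn with
        | _ x =>
          induction b using Quotient.inductionOn with
          | _ y => rfl }

lemma cc_congr {G H : Type} [Group G] [Group H] (e : G ≃* H) :
    Nat.card (ConjClasses G) = Nat.card (ConjClasses H) :=
  Nat.card_congr
    { toFun := ConjClasses.map e.toMonoidHom
      invFun := ConjClasses.map e.symm.toMonoidHom
      left_inv := fun c => by
        induction c using Quotient.inductionOn with
        | _ x =>
          change ConjClasses.mk (e.symm (e x)) = ConjClasses.mk x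
          rw [MulEquiv.symm_apply_apply]
      right_inv := fun c => by
        induction c using Quotient.inductionOn with
        | _ x =>
          change ConjClasses.mk (e (e.symm x)) = ConjClasses.mk x
          rw [MulEquiv.apply_symm_apply] }

lemma cc_inv (G : Type) [Group G] :
    ConjInv (fun K : Subgroup G => (Nat.card (ConjClasses K) : ℤ)) := by
  intro g K
  change (Nat.card (ConjClasses (conjSub g K)) : ℤ) = (Nat.card (ConjClasses K) : ℤ)
  rw [cc_congr (K.equivMapOfInjective (MulAut.conj g).toMonoidHom (MulAut.conj g).injective)]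
  rfl

/-- the alternating sum of the numbers of conjugacy classes -/
def sK (p : ℕ) (G : Type) [Group G] : ℤ :=
  alternatingSum p G (fun H => (Nat.card (ConjClasses H) : ℤ))

lemma sK_prod : sK p (G × H) = sK p G * sK p H := by
  unfold sK
  rw [← altSum_bot, ← altSum_bot, ← altSum_bot]
  have h := altSum_prod (p := p) (G₁ := G) (G₂ := H) (O₁ := ⊥) (O₂ := ⊥) IsPGroup.of_bot
    IsPGroup.of_bot inferInstance inferInstance (Finset.univ : Finset Unit)
    (fun K => (Nat.card (ConjClasses K) : ℤ)) (fun _ K => (Nat.card (ConjClasses K) : ℤ))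
    (fun _ K => (Nat.card (ConjClasses K) : ℤ)) (cc_inv _) (fun _ => cc_inv _) (fun _ => cc_inv _)
    (fun K L => by
      rw [cc_congr (Subgroup.prodEquiv K L), cc_prod]
      simp)
  rw [Subgroup.bot_prod_bot] at h
  rw [h]
  simp

lemma z_prod : numDefectZero p (G × H) = numDefectZero p G * numDefectZero p H := by
  have : Fintype G := Fintype.ofFinite G
  have : Fintype H := Fintype.ofFinite H
  have h := card_prod (G := G) (H := H) (Finset.univ : Finset Unit) (fun χ => Dft p 0 χ)
    (fun _ θ => Dft p 0 θ) (fun _ ψ => Dft p 0 ψ) (by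
      intro θ ψ hθ hψ
      constructor
      · intro h0
        obtain ⟨i, hi⟩ := Pool.Agent.Q99.AS.Dft_exists p hθ
        obtain ⟨j, hj⟩ := Pool.Agent.Q99.AS.Dft_exists p hψ
        have h1 := Pool.Agent.Q99.AS.Dft_unique (Dft_ten' hθ hψ hi hj) h0
        obtain ⟨rfl, rfl⟩ : i = 0 ∧ j = 0 := by omega
        exact ⟨(), Finset.mem_univ _, hi, hj⟩
      · rintro ⟨-, -, h1, h2⟩
        exact Dft_ten' hθ hψ h1 h2) (by intros; rfl)
  rw [Finset.univ_unique, Finset.sum_singleton] at h
  exact h

end prod

end Pool.Agent.H297.WP
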