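import Pool.Agent.H297.WP.Prod
import Pool.Agent.R674.Ce.Fin

/-!
# The Knörr-Robinson difference of `G ≀ C_p`
-/

set_option autoImplicit false

open scoped Classical

set_option linter.unusedSectionVars false

noncomputable section

namespace Pool.Agent.H297.WP

open Pool.Agent.R674.Ce
open Pool.Agent.Y63.KR (KRC alternatingSum altSum_classes)
open Pool.Agent.Y63.AWC (numDefectZero numDefectZero_congr)

section

variable {p : ℕ} [hp : Fact p.Prime]

/-- the difference of the two sides of the Knörr-Robinson conjecture -/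
def del (p : ℕ) (G : Type) [Group G] : ℤ := sK p G - numDefectZero p G

lemma defK_eq (G : Type) [Group G] : defK p G = (Nat.card G : ℤ) * del p G := by
  unfold defK AK DK del sK
  ring

lemma krc_iff (G : Type) [Group G] [Finite G] : KRC p G ↔ del p G = 0 := by
  rw [krc_iff_def, defK_eq, mul_eq_zero, or_iff_right]
  exact_mod_cast Nat.card_pos.ne'

lemma sK_congr {G H : Type} [Group G] [Group H] [Finite G] [Finite H] (e : G ≃* H) :
    sK p G = sK p H := by
  have h := AK_congr (p := p) e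
  unfold AK at h
  rw [Nat.card_congr e.toEquiv] at h
  exact mul_left_cancel₀ (by exact_mod_cast Nat.card_pos.ne') h

lemma pow_fin (G : Type) [Group G] [Finite G] : ∀ n : ℕ,
    sK p (Fin (n + 1) → G) = sK p G ^ (n + 1) ∧
      numDefectZero p (Fin (n + 1) → G) = numDefectZero p G ^ (n + 1) := by
  intro n
  induction n with
  | zero =>
    have e : (Fin (0 + 1) → G) ≃* G := (MulEquiv.funUnique (Fin 1) G : (Fin 1 → G) ≃* G)
    rw [sK_congr e, numDefectZero_congr e]
    simp
  | succ n ih =>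
    let e : (Fin (n + 1 + 1) → G) ≃* G × (Fin (n + 1) → G) :=
      { toFun := fun f => (f 0, fun i => f i.succ)
        invFun := fun q => Fin.cons q.1 q.2
        left_inv := fun f => by
          funext i
          refine Fin.cases ?_ (fun i => ?_) i
          · rfl
          · rfl
        right_inv := fun q => rfl
        map_mul' := fun a b => rfl }
    rw [sK_congr e, numDefectZero_congr e, sK_prod, z_prod, ih.1, ih.2]
    exact ⟨(pow_succ' _ _).symm, (pow_succ' _ _).symm⟩

lemma pow_cy (G : Type) [Group G] [Finite G] :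
    sK p (Cy p → G) = sK p G ^ p ∧ numDefectZero p (Cy p → G) = numDefectZero p G ^ p := by
  obtain ⟨m, hm⟩ : ∃ m, p = m + 1 := ⟨p - 1, by have := hp.out.pos; omega⟩
  have hc : Nat.card (Cy p) = Nat.card (Fin (m + 1)) := by
    rw [Nat.card_fin, ← hm]
    exact Nat.card_zmod p
  have : Fintype (Cy p) := Fintype.ofFinite _
  have e : (Cy p → G) ≃* (Fin (m + 1) → G) :=
    MulEquiv.arrowCongr (Fintype.equivOfCardEq (by
      rw [← Nat.card_eq_fintype_card, ← Nat.card_eq_fintype_card]; exact hc)) (MulEquiv.refl G)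
  rw [sK_congr e, numDefectZero_congr e, (pow_fin G m).1, (pow_fin G m).2, ← hm]
  exact ⟨rfl, rfl⟩

variable {G : Type} [Group G] [Finite G]

lemma orderOf_T {x : Wr p G} (hx : x ∈ T p G) : orderOf x = p := by
  refine orderOf_eq_prime hx.2 ?_
  rintro rfl
  have h1 := hx.1
  have h2 : tau p ^ 1 = 1 := by
    rw [pow_one, ← h1]
    rfl
  exact hp.out.one_lt.ne' (Nat.dvd_one.mp (tau_pow_eq_one.mp h2))

lemma zpowers_mem {x : Wr p G} (hx : x ∈ T p G) : Subgroup.zpowers x ∈ Cpl p (base p G) := by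
  have hf : IsOfFinOrder x := isOfFinOrder_of_finite x
  refine ⟨?_, ?_, ?_⟩
  · refine IsPGroup.of_card (n := 1) ?_
    rw [Nat.card_zpowers, orderOf_T hx, pow_one]
  · rw [eq_top_iff]
    intro y _
    have h1 : y = (y * (x ^ (ZMod.val (Multiplicative.toAdd y.right)))⁻¹) *
        x ^ (ZMod.val (Multiplicative.toAdd y.right)) := by group
    rw [h1]
    refine Subgroup.mul_mem_sup ?_ (Subgroup.pow_mem _ (Subgroup.mem_zpowers x) _)
    rw [mem_base, RegularWreathProduct.mul_right, RegularWreathProduct.inv_right, right_pow, hx.1,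
      tau_pow, ZMod.natCast_zmod_val, ofAdd_toAdd, mul_inv_cancel]
  · rw [eq_bot_iff]
    rintro y ⟨hy1, hy2⟩
    obtain ⟨k, rfl⟩ := (Submonoid.mem_powers_iff _ _).mp (hf.mem_powers_iff_mem_zpowers.mpr hy2)
    have h2 := mem_base.mp hy1
    rw [right_pow, hx.1, tau_pow_eq_one] at h2
    obtain ⟨c, rfl⟩ := h2
    rw [pow_mul, hx.2, one_pow]
    exact Subgroup.mem_bot.mpr rfl

lemma zpowers_inj {x y : Wr p G} (hx : x ∈ T p G) (hy : y ∈ T p G)
    (h : Subgroup.zpowers x = Subgroup.zpowers y) : x = y := by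
  have h1 : x ∈ Subgroup.zpowers y := by
    rw [← h]
    exact Subgroup.mem_zpowers x
  have hf : IsOfFinOrder y := isOfFinOrder_of_finite y
  obtain ⟨k, hk⟩ := (Submonoid.mem_powers_iff _ _).mp (hf.mem_powers_iff_mem_zpowers.mpr h1)
  have h2 : tau p ^ k = tau p ^ 1 := by
    have h4 := congrArg RegularWreathProduct.right hk
    rw [right_pow, hy.1, hx.1] at h4
    rw [h4, pow_one]
  rw [tau_pow, tau_pow, Multiplicative.ofAdd.injective.eq_iff, ZMod.natCast_eq_natCast_iff] at h2
  have h3 := pow_eq_pow_of_modEq h2 hy.2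
  rw [hk, pow_one] at h3
  exact h3

lemma zpowers_surj {R : Subgroup (Wr p G)} (hR : R ∈ Cpl p (base p G)) :
    ∃ x ∈ T p G, Subgroup.zpowers x = R := by
  have h1 : (RegularWreathProduct.inl (tau p) : Wr p G) ∈ base p G ⊔ R := by
    rw [hR.2.1]
    trivial
  obtain ⟨n, hn, r, hr, hnr⟩ := Subgroup.mem_sup_of_normal_left.mp h1
  have h2 : r.right = tau p := by
    have h3 := congrArg RegularWreathProduct.right hnr
    rw [RegularWreathProduct.mul_right, mem_base.mp hn, one_mul] at h3
    exact h3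
  have h3 : r ^ p = 1 := by
    have h4 : r ^ p ∈ base p G ⊓ R := by
      refine Subgroup.mem_inf.mpr ⟨?_, Subgroup.pow_mem _ hr _⟩
      rw [mem_base, right_pow, h2, tau_pow_eq_one]
    rw [hR.2.2, Subgroup.mem_bot] at h4
    exact h4
  refine ⟨r, ⟨h2, h3⟩, ?_⟩
  refine zpowers_of_mem (cpl_card index_base hR) hr ?_
  intro h4
  have := orderOf_T (p := p) (G := G) ⟨h2, h3⟩
  rw [h4, orderOf_one] at this
  exact hp.out.one_lt.ne this

lemma card_cpl : Nat.card (Cpl p (base p G)) = Nat.card (T p G) := by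
  symm
  refine Nat.card_congr (Equiv.ofBijective (fun x : T p G =>
    (⟨Subgroup.zpowers x.1, zpowers_mem x.2⟩ : Cpl p (base p G))) ⟨?_, ?_⟩)
  · intro x y h
    exact Subtype.ext (zpowers_inj x.2 y.2 (congrArg Subtype.val h))
  · rintro ⟨R, hR⟩
    obtain ⟨x, hx, h⟩ := zpowers_surj hR
    exact ⟨⟨x, hx⟩, Subtype.ext h⟩

lemma sum_cpl : (∑ᶠ R : Subgroup (Wr p G), if IsPGroup p R ∧ base p G ⊔ R = ⊤ ∧ base p G ⊓ R = ⊥ then
        defK p ↥(base p G ⊓ Subgroup.centralizer (R : Set (Wr p G))) else 0) =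
    Nat.card (T p G) * defK p G := by
  have : Fintype (Subgroup (Wr p G)) := Fintype.ofFinite _
  have : Fintype (Cpl p (base p G)) := Fintype.ofFinite _
  rw [finsum_eq_sum_of_fintype, ← Finset.sum_filter, ← card_cpl]
  have h1 : ∀ R ∈ Finset.univ.filter (fun R : Subgroup (Wr p G) => IsPGroup p R ∧
      base p G ⊔ R = ⊤ ∧ base p G ⊓ R = ⊥),
      defK p ↥(base p G ⊓ Subgroup.centralizer (R : Set (Wr p G))) = defK p G := by
    intro R hR
    obtain ⟨x, hx, rfl⟩ := zpowers_surj (Finset.mem_filter.mp hR).2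
    exact defK_congr (exists_cent hx).some
  rw [Finset.sum_congr rfl h1, Finset.sum_const, nsmul_eq_mul]
  congr 1
  rw [Nat.card_eq_fintype_card, ← Fintype.card_subtype]
  norm_cast
  exact Fintype.card_congr (Equiv.refl _)

/-- **the two sides of the Knörr-Robinson conjecture for `G ≀ C_p`** -/
theorem del_wr : (p : ℤ) * del p (Wr p G) =
    sK p G ^ p - (numDefectZero p G : ℤ) ^ p - del p G := by
  have h1 := def_formula (G := base p G) index_base
  rw [sum_cpl, defK_congr (baseEquiv p G), defK_eq, defK_eq, defK_eq] at h1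
  have h2 := card_T (p := p) (G := G)
  have h3 : (Nat.card (Wr p G)) = Nat.card (base p G) * p := by
    have := (base p G).card_mul_index
    rw [index_base] at this
    exact this.symm
  have h4 : Nat.card (base p G) = Nat.card (Cy p → G) := Nat.card_congr (baseEquiv p G).toEquiv
  have h5 : del p (Cy p → G) = sK p G ^ p - (numDefectZero p G : ℤ) ^ p := by
    unfold del
    rw [(pow_cy G).1, (pow_cy G).2]
    push_cast
    ring
  rw [h3, h5, ← h4, ← h2] at h1
  have h6 : ((Nat.card (T p G) * Nat.card G : ℕ) : ℤ) ≠ 0 := by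
    rw [h2]
    exact_mod_cast Nat.card_pos.ne'
  apply mul_left_cancel₀ h6
  push_cast at h1 ⊢
  linear_combination h1

lemma step {s z d : ℤ} {a : ℕ} (ha : 1 ≤ a) (h : (p : ℤ) * d = s ^ p - z ^ p - (s - z))
    (h1 : (p : ℤ) ^ a ∣ s - z) (h2 : (p : ℤ) ^ a ∣ d) : (p : ℤ) ^ (a + 1) ∣ s - z := by
  have h3 : (p : ℤ) ∣ s - z := (dvd_pow_self _ (by omega)).trans h1
  have h4 : (p : ℤ) ∣ ∑ i ∈ Finset.range p, s ^ i * z ^ (p - 1 - i) := by
    rw [dvd_geom_sum₂_iff_of_dvd_sub h3]
    exact dvd_mul_right _ _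
  have h5 : (p : ℤ) ^ (a + 1) ∣ s ^ p - z ^ p := by
    rw [← (Commute.all s z).geom_sum₂_mul, pow_succ']
    exact mul_dvd_mul h4 h1
  have h6 : (p : ℤ) ^ (a + 1) ∣ (p : ℤ) * d := by
    rw [pow_succ']
    exact mul_dvd_mul_left _ h2
  have h7 : s - z = (s ^ p - z ^ p) - p * d := by linarith
  rw [h7]
  exact dvd_sub h5 h6

/-- the iterated wreath products -/
def It (p : ℕ) (n : ℕ) (G : GrpCat.{0}) : GrpCat.{0} :=
  (fun H : GrpCat.{0} => GrpCat.of (Wr p H))^[n] G

end

end Pool.Agent.H297.WP
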