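import Pool.Agent.R674.Ce.Mob3

/-!
# The wreath product of a finite group with the cyclic group of order `p`
-/

set_option autoImplicit false

open scoped Classical

set_option linter.unusedSectionVars false

noncomputable section

namespace Pool.Agent.H297.WP

open Pool.Agent.R674.Ce

/-- the cyclic group of order `p` -/
abbrev Cy (p : ℕ) : Type := Multiplicative (ZMod p)

/-- the wreath product of `G` with the cyclic group of order `p` -/
abbrev Wr (p : ℕ) (G : Type) [Group G] : Type := RegularWreathProduct G (Cy p)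

section

variable {p : ℕ} [hp : Fact p.Prime] {G : Type} [Group G]

instance : NeZero p := ⟨hp.out.ne_zero⟩

instance : Finite (Cy p) := inferInstanceAs (Finite (ZMod p))

/-- the generator -/
def tau (p : ℕ) : Cy p := Multiplicative.ofAdd 1

lemma tau_pow (k : ℕ) : tau p ^ k = Multiplicative.ofAdd (k : ZMod p) := by
  unfold tau
  rw [← ofAdd_nsmul, nsmul_one]

lemma tau_pow_eq_one {k : ℕ} : tau p ^ k = 1 ↔ p ∣ k := by
  rw [tau_pow, ← ofAdd_zero, Multiplicative.ofAdd.injective.eq_iff, ZMod.natCast_eq_zero_iff]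

/-- the base group -/
def base (p : ℕ) (G : Type) [Group G] : Subgroup (Wr p G) :=
  (RegularWreathProduct.rightHom : Wr p G →* Cy p).ker

instance : (base p G).Normal := by
  unfold base
  infer_instance

lemma mem_base {x : Wr p G} : x ∈ base p G ↔ x.right = 1 := by
  unfold base
  rw [MonoidHom.mem_ker]
  rfl

/-- the base group is a direct power -/
def baseEquiv (p : ℕ) [Fact p.Prime] (G : Type) [Group G] : base p G ≃* (Cy p → G) where
  toFun x := x.1.left
  invFun f := ⟨⟨f, 1⟩, mem_base.mpr rfl⟩
  left_inv x := by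
    apply Subtype.ext
    have h := mem_base.mp x.2
    apply RegularWreathProduct.ext
    · rfl
    · exact h.symm
  right_inv f := rfl
  map_mul' x y := by
    change (x.1 * y.1).left = x.1.left * y.1.left
    rw [RegularWreathProduct.mul_left, mem_base.mp x.2]
    funext t
    simp

lemma index_base : (base p G).index = p := by
  unfold base
  rw [Subgroup.index_ker]
  have : (RegularWreathProduct.rightHom : Wr p G →* Cy p).range = ⊤ := by
    rw [MonoidHom.range_eq_top]
    intro t
    exact ⟨RegularWreathProduct.inl t, rfl⟩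
  rw [this, Subgroup.card_top]
  change Nat.card (ZMod p) = p
  exact Nat.card_zmod p

lemma right_pow (x : Wr p G) (k : ℕ) : (x ^ k).right = x.right ^ k := by
  have := map_pow (RegularWreathProduct.rightHom : Wr p G →* Cy p) x k
  exact this

/-- the elements of order `p` over the generator -/
def T (p : ℕ) (G : Type) [Group G] : Set (Wr p G) := {x | x.right = tau p ∧ x ^ p = 1}

/-- the constant functions -/
def cst (p : ℕ) {G : Type} [Group G] (g : G) : Wr p G := ⟨fun _ => g, 1⟩

lemma cst_mem (g : G) : cst p g ∈ base p G := mem_base.mpr rfl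

lemma inl_mem_T : (RegularWreathProduct.inl (tau p) : Wr p G) ∈ T p G := by
  refine ⟨rfl, ?_⟩
  rw [← map_pow, tau_pow_eq_one.mpr (dvd_refl p), map_one]

lemma conj_inl {n : Wr p G} (hn : n ∈ base p G) :
    n * RegularWreathProduct.inl (tau p) * n⁻¹ ∈ T p G := by
  refine ⟨?_, ?_⟩
  · simp [mem_base.mp hn]
  · rw [conj_pow, inl_mem_T.2]
    group

/-- all elements of `T` are conjugate -/
lemma exists_conj {x : Wr p G} (hx : x ∈ T p G) :
    ∃ n ∈ base p G, n * RegularWreathProduct.inl (tau p) * n⁻¹ = x := by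
  refine ⟨⟨fun y => (x ^ (ZMod.val (Multiplicative.toAdd y))).left y, 1⟩, mem_base.mpr rfl, ?_⟩
  rw [mul_inv_eq_iff_eq_mul]
  apply RegularWreathProduct.ext
  · funext y
    simp only [RegularWreathProduct.mul_left, RegularWreathProduct.left_inl, Pi.mul_apply,
      Pi.one_apply, mul_one]
    have e1 : x.left y * (x ^ (ZMod.val (Multiplicative.toAdd (x.right⁻¹ * y)))).left
        (x.right⁻¹ * y) = (x * x ^ (ZMod.val (Multiplicative.toAdd (x.right⁻¹ * y)))).left y := by
      rw [RegularWreathProduct.mul_left]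
      rfl
    rw [e1, ← pow_succ']
    have e2 : x ^ (ZMod.val (Multiplicative.toAdd y)) =
        x ^ (ZMod.val (Multiplicative.toAdd (x.right⁻¹ * y)) + 1) := by
      refine pow_eq_pow_of_modEq ?_ hx.2
      rw [← ZMod.natCast_eq_natCast_iff]
      push_cast
      rw [ZMod.natCast_zmod_val, ZMod.natCast_zmod_val, hx.1]
      unfold tau
      rw [toAdd_mul, toAdd_inv, toAdd_ofAdd]
      ring
    rw [e2]
  · simp [hx.1]

/-- the elements of the base group commuting with the generator are constant -/
lemma eq_cst {m : Wr p G} (hm : m ∈ base p G)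
    (h : m * RegularWreathProduct.inl (tau p) = RegularWreathProduct.inl (tau p) * m) :
    m = cst p (m.left 1) := by
  have h1 : ∀ y : Cy p, m.left y = m.left ((tau p)⁻¹ * y) := by
    intro y
    have h2 := congrFun (congrArg RegularWreathProduct.left h) y
    simpa using h2
  have h3 : ∀ (k : ℕ) (y : Cy p), m.left (tau p ^ k * y) = m.left y := by
    intro k
    induction k with
    | zero => intro y; simp
    | succ k ih =>
      intro y
      rw [h1, pow_succ', mul_assoc, inv_mul_cancel_left, ih]
  apply RegularWreathProduct.ext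
  · funext y
    change m.left y = m.left 1
    have h4 := h3 (ZMod.val (Multiplicative.toAdd y)) 1
    rw [mul_one, tau_pow, ZMod.natCast_zmod_val, ofAdd_toAdd] at h4
    exact h4
  · exact mem_base.mp hm

lemma cst_comm (g : G) :
    cst p g * RegularWreathProduct.inl (tau p) = RegularWreathProduct.inl (tau p) * cst p g := by
  apply RegularWreathProduct.ext
  · funext y
    simp [cst]
  · simp [cst]

lemma base_mul_left {m n : Wr p G} (hm : m ∈ base p G) (y : Cy p) :
    (m * n).left y = m.left y * n.left y := by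
  rw [RegularWreathProduct.mul_left, mem_base.mp hm]
  simp

lemma card_T : Nat.card (T p G) * Nat.card G = Nat.card (base p G) := by
  rw [← Nat.card_prod]
  symm
  refine Nat.card_congr (Equiv.ofBijective (fun n : base p G =>
    ((⟨n.1 * RegularWreathProduct.inl (tau p) * n.1⁻¹, conj_inl n.2⟩ : T p G), n.1.left 1)) ⟨?_, ?_⟩)
  · intro m n h
    have h1 := congrArg Subtype.val (congrArg Prod.fst h)
    have h2 : m.1.left 1 = n.1.left 1 := congrArg Prod.snd h
    change m.1 * RegularWreathProduct.inl (tau p) * m.1⁻¹ =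
      n.1 * RegularWreathProduct.inl (tau p) * n.1⁻¹ at h1
    have h3 : n.1⁻¹ * m.1 ∈ base p G := (base p G).mul_mem ((base p G).inv_mem n.2) m.2
    have h4 := eq_cst h3 (by
      calc n.1⁻¹ * m.1 * RegularWreathProduct.inl (tau p)
          = n.1⁻¹ * (m.1 * RegularWreathProduct.inl (tau p) * m.1⁻¹) * m.1 := by group
        _ = RegularWreathProduct.inl (tau p) * (n.1⁻¹ * m.1) := by rw [h1]; group)
    have h5 : m.1 = n.1 * (n.1⁻¹ * m.1) := by group
    have h6 := base_mul_left (n := n.1⁻¹ * m.1) n.2 1
    rw [← h5, h2] at h6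
    have h7 : (n.1⁻¹ * m.1).left 1 = 1 := by
      have := h6
      exact (mul_eq_left.mp this.symm)
    rw [h7] at h4
    apply Subtype.ext
    rw [h5, h4]
    have h8 : cst p (1 : G) = 1 := rfl
    rw [h8, mul_one]
  · rintro ⟨x, g⟩
    obtain ⟨n, hn, h⟩ := exists_conj x.2
    refine ⟨⟨n * cst p ((n.left 1)⁻¹ * g), (base p G).mul_mem hn (cst_mem _)⟩, ?_⟩
    apply Prod.ext
    · apply Subtype.ext
      change n * cst p ((n.left 1)⁻¹ * g) * RegularWreathProduct.inl (tau p) *
        (n * cst p ((n.left 1)⁻¹ * g))⁻¹ = x.1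
      rw [← h]
      have := cst_comm (p := p) ((n.left 1)⁻¹ * g)
      calc n * cst p ((n.left 1)⁻¹ * g) * RegularWreathProduct.inl (tau p) *
            (n * cst p ((n.left 1)⁻¹ * g))⁻¹
          = n * (cst p ((n.left 1)⁻¹ * g) * RegularWreathProduct.inl (tau p)) *
            (cst p ((n.left 1)⁻¹ * g))⁻¹ * n⁻¹ := by group
        _ = n * RegularWreathProduct.inl (tau p) * n⁻¹ := by rw [this]; group
    · change (n * cst p ((n.left 1)⁻¹ * g)).left 1 = g
      rw [base_mul_left hn]
      change n.left 1 * ((n.left 1)⁻¹ * g) = g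
      group

lemma mem_cent_zpowers {x m : Wr p G} :
    m ∈ Subgroup.centralizer ((Subgroup.zpowers x : Subgroup (Wr p G)) : Set (Wr p G)) ↔
      m * x = x * m := by
  rw [Subgroup.mem_centralizer_iff]
  constructor
  · intro h
    exact (h x (Subgroup.mem_zpowers x)).symm
  · rintro h y hy
    obtain ⟨k, rfl⟩ := Subgroup.mem_zpowers_iff.mp hy
    have h1 : Commute x m := h.symm
    exact (h1.zpow_left k).eq

/-- the centraliser in the base group of an element of `T` -/
lemma exists_cent {x : Wr p G} (hx : x ∈ T p G) :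
    Nonempty (↥(base p G ⊓ Subgroup.centralizer
      ((Subgroup.zpowers x : Subgroup (Wr p G)) : Set (Wr p G))) ≃* G) := by
  obtain ⟨n, hn, h⟩ := exists_conj hx
  let ev : ↥(base p G ⊓ Subgroup.centralizer
      ((Subgroup.zpowers x : Subgroup (Wr p G)) : Set (Wr p G))) →* G :=
    { toFun := fun m => m.1.left 1
      map_one' := rfl
      map_mul' := fun a b => base_mul_left a.2.1 1 }
  have hcomm : ∀ m : Wr p G, m * x = x * m →
      (n⁻¹ * m * n) * RegularWreathProduct.inl (tau p) =
        RegularWreathProduct.inl (tau p) * (n⁻¹ * m * n) := by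
    intro m hm
    calc (n⁻¹ * m * n) * RegularWreathProduct.inl (tau p)
        = n⁻¹ * (m * (n * RegularWreathProduct.inl (tau p) * n⁻¹)) * n := by group
      _ = n⁻¹ * (x * m) * n := by rw [h, hm]
      _ = RegularWreathProduct.inl (tau p) * (n⁻¹ * m * n) := by rw [← h]; group
  refine ⟨MulEquiv.ofBijective ev ⟨?_, ?_⟩⟩
  · rw [injective_iff_map_eq_one]
    intro m hm
    have h1 : m.1.left 1 = 1 := hm
    have h2 := mem_cent_zpowers.mp m.2.2
    have h3 : n⁻¹ * m.1 * n ∈ base p G :=
      (base p G).mul_mem ((base p G).mul_mem ((base p G).inv_mem hn) m.2.1) hn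
    have h4 := eq_cst h3 (hcomm m.1 h2)
    have h5 : (n⁻¹ * m.1 * n).left 1 = 1 := by
      rw [base_mul_left ((base p G).mul_mem ((base p G).inv_mem hn) m.2.1),
        base_mul_left ((base p G).inv_mem hn), h1, mul_one, ← base_mul_left ((base p G).inv_mem hn)]
      simp
    rw [h5] at h4
    apply Subtype.ext
    have h6 : m.1 = n * (n⁻¹ * m.1 * n) * n⁻¹ := by group
    rw [h6, h4]
    have h8 : cst p (1 : G) = 1 := rfl
    rw [h8]
    simp
  · intro g
    refine ⟨⟨n * cst p ((n.left 1)⁻¹ * g * n.left 1) * n⁻¹, Subgroup.mem_inf.mpr ⟨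
      (base p G).mul_mem ((base p G).mul_mem hn (cst_mem _)) ((base p G).inv_mem hn), ?_⟩⟩, ?_⟩
    · rw [mem_cent_zpowers, ← h]
      have := cst_comm (p := p) ((n.left 1)⁻¹ * g * n.left 1)
      calc n * cst p ((n.left 1)⁻¹ * g * n.left 1) * n⁻¹ *
            (n * RegularWreathProduct.inl (tau p) * n⁻¹)
          = n * (cst p ((n.left 1)⁻¹ * g * n.left 1) * RegularWreathProduct.inl (tau p)) * n⁻¹ := by
            group
        _ = n * RegularWreathProduct.inl (tau p) * n⁻¹ *
            (n * cst p ((n.left 1)⁻¹ * g * n.left 1) * n⁻¹) := by rw [this]; group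
    · change (n * cst p ((n.left 1)⁻¹ * g * n.left 1) * n⁻¹).left 1 = g
      rw [base_mul_left ((base p G).mul_mem hn (cst_mem _)), base_mul_left hn]
      have h9 : (n⁻¹).left 1 = (n.left 1)⁻¹ := by
        rw [RegularWreathProduct.inv_left, mem_base.mp hn]
        simp
      rw [h9]
      change n.left 1 * ((n.left 1)⁻¹ * g * n.left 1) * (n.left 1)⁻¹ = g
      group

end

end Pool.Agent.H297.WP
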